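import Pool.Agent.Q230.CT.Norm

/-!
# A placement in convex position gives a satisfying assignment
-/

set_option autoImplicit false

namespace Pool.Agent.Q230.CT

open Pool.Agent.NPC

variable {φ : List (Lit ℕ × Lit ℕ × Lit ℕ)} {S : Set (ℝ × ℝ)}

theorem mvt (m : ℕ) (e q : ℝ) (u : ℕ) (X Y : ℤ) :
    mv e q (rp m (true, u, X, Y)) = pt (DD m : ℝ) u (X + q * (u + 1 - e)) (Y + q * (u - e)) := by
  unfold rp
  simp only [sd, if_true]
  rw [mv_pt]

theorem mvf (m : ℕ) (e q : ℝ) (u : ℕ) (X Y : ℤ) :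
    mv e q (rp m (false, u, X, Y)) =
      rf (DD m : ℝ) (UU m) (pt (DD m : ℝ) u (X - q * (u + 1 - e)) (Y - q * (u - e))) := by
  unfold rp
  simp only [sd, Bool.false_eq_true, if_false]
  rw [mv_rf, mv_pt]
  congr 2 <;> ring

theorem ed_le (l : Lit ℕ) : ed l ≤ l.2 + 1 := by
  unfold ed; split <;> omega

theorem gc_bounds (m : ℕ) (l : Lit ℕ) (hl : l.2 < 3 * m) :
    3 * m + 1 ≤ gc m l ∧ gc m l ≤ 9 * m := by
  unfold gc
  split <;> omega

theorem DD_pos (m : ℕ) : (0 : ℝ) < (DD m : ℝ) := by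
  rw [DD_real]; linarith [MM_pos m]

theorem UU_pos (m : ℕ) : 1 ≤ UU m := by unfold UU MM; omega

theorem mem_lset_tri (φ : List (Lit ℕ × Lit ℕ × Lit ℕ)) (l : Lit ℕ) (s : Bool) {X : ℤ}
    (hX : X = -2500000 * (MM φ.length : ℤ) ∨ X = -2000000 * (MM φ.length : ℤ) ∨
      X = -1500000 * (MM φ.length : ℤ)) : (s, ed l, X, (0 : ℤ)) ∈ lset φ l := by
  unfold lset
  rw [List.mem_append]
  left
  cases s <;> rcases hX with rfl | rfl | rfl <;> simp [tri, both]

theorem mem_lset_vpts (φ : List (Lit ℕ × Lit ℕ × Lit ℕ)) (l : Lit ℕ) {x : Spec}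
    (hx : x ∈ vpts φ.length l) : x ∈ lset φ l := by
  unfold lset
  simp only [List.mem_append]
  exact Or.inr (Or.inl hx)

theorem mem_lset_gpts (φ : List (Lit ℕ × Lit ℕ × Lit ℕ)) (l : Lit ℕ) {x : Spec}
    (hx : x ∈ gpts φ.length l) : x ∈ lset φ l := by
  unfold lset
  simp only [List.mem_append]
  exact Or.inr (Or.inr (Or.inl hx))

theorem mem_lset_cpts (l : Lit ℕ) {c : Lit ℕ × Lit ℕ × Lit ℕ} {i : ℕ} (hc : φ[i]? = some c)
    {x : Spec} (hx : x ∈ cpts φ.length l c i) : x ∈ lset φ l := by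
  unfold lset
  simp only [List.mem_append, List.mem_flatMap]
  exact Or.inr (Or.inr (Or.inr ⟨(c, i), List.mem_zipIdx_iff_getElem?.2 hc, hx⟩))

/-- The sets of the literals can only be moved along their edges, by at most 20. -/
theorem exists_q (hG : Good (DD φ.length) (UU φ.length) S) {l : Lit ℕ} (hl : l.2 < 3 * φ.length)
    {c : ℝ} {t : ℝ × ℝ} (hc : 0 < c) (hmem : ∀ x ∈ lset φ l, pl c t (rp φ.length x) ∈ S) :
    ∃ q : ℝ, 0 ≤ q ∧ q ≤ 20 ∧ ∀ x ∈ lset φ l, mv (ed l : ℝ) q (rp φ.length x) ∈ S := by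
  set m := φ.length with hm
  have hD := DD_pos m
  have hU := UU_pos m
  have he1 := ed_le l
  have he : ed l ≤ UU m := by
    unfold UU MM; omega
  have hsh := hG.shift hD hU he hc (t := t) (by
    intro s r hr
    rcases hr with rfl | rfl | rfl
    · have h1 := hmem _ (mem_lset_tri φ l s (Or.inl rfl))
      unfold rp at h1
      convert h1 using 4
      · rw [DD_real]; push_cast; ring
      · simp
    · have h1 := hmem _ (mem_lset_tri φ l s (Or.inr (Or.inl rfl)))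
      unfold rp at h1
      convert h1 using 4
      · rw [DD_real]; push_cast; ring
      · simp
    · have h1 := hmem _ (mem_lset_tri φ l s (Or.inr (Or.inr rfl)))
      unfold rp at h1
      convert h1 using 4
      · rw [DD_real]; push_cast; ring
      · simp)
  have hall : ∀ x ∈ lset φ l, mv (ed l : ℝ) t.1 (rp m x) ∈ S := by
    intro x hx
    rw [← hsh]
    exact hmem x hx
  obtain ⟨g1, g2⟩ := gc_bounds m l hl
  have hJ : gc m l + 1 ≤ UU m := by
    unfold UU MM; omega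
  have hpos : (0 : ℝ) < (gc m l : ℝ) + 1 - ed l := by
    have : ed l < gc m l + 1 := by omega
    have h2 : (ed l : ℝ) < (gc m l : ℝ) + 1 := by exact_mod_cast this
    linarith
  refine ⟨t.1, ?_, ?_, hall⟩
  · have h1 := hall (false, gc m l, 0, -500000 * (MM m : ℤ))
      (mem_lset_gpts φ l (by simp [gpts, ← hm]))
    rw [mvf] at h1
    have h2 := hG.L_ge hD hU hJ h1
    rw [L_rf] at h2
    push_cast at h2
    rw [L_pt1] at h2
    have h3 : 0 ≤ t.1 * ((gc m l : ℝ) + 1 - ed l) := by linarith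
    exact nonneg_of_mul_nonneg_left h3 hpos
  · have h1 := hall (true, gc m l, -20 * ((gc m l : ℤ) + 1 - ed l), -500000 * (MM m : ℤ))
      (mem_lset_gpts φ l (by simp [gpts, ← hm]))
    rw [mvt] at h1
    have h2 := hG.L_le hD hU hJ h1
    push_cast at h2
    rw [L_pt1] at h2
    have h3 : (t.1 - 20) * ((gc m l : ℝ) + 1 - ed l) ≤ 0 := by linarith
    by_contra hcon
    push Not at hcon
    linarith [mul_pos (by linarith : 0 < t.1 - 20) hpos]

/-- The corner of a variable: the two sets cannot both be moved by more than 1, and they cannot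
both be moved by less than 19. -/
theorem var_excl (hG : Good (DD φ.length) (UU φ.length) S) {v : ℕ} (hv : v < 3 * φ.length)
    {q q' : ℝ} (hq0 : 0 ≤ q) (hq : q ≤ 20) (hq0' : 0 ≤ q') (hq' : q' ≤ 20)
    (h : ∀ x ∈ lset φ (true, v), mv (ed (true, v) : ℝ) q (rp φ.length x) ∈ S)
    (h' : ∀ x ∈ lset φ (false, v), mv (ed (false, v) : ℝ) q' (rp φ.length x) ∈ S) :
    ¬(1 < q ∧ 1 < q') ∧ ¬(q < 19 ∧ q' < 19) := by
  set m := φ.length with hm
  have hD := DD_pos m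
  have hU := UU_pos m
  have hM := MM_pos m
  have hDr := DD_real m
  have hvU : v < UU m := by
    unfold UU MM; omega
  have e1 : ((ed (true, v) : ℕ) : ℝ) = v := by simp [ed]
  have e2 : ((ed (false, v) : ℕ) : ℝ) = v + 1 := by simp [ed]
  have t1 := h (true, v, -25000 * (MM m : ℤ), -25000 * (MM m : ℤ))
    (mem_lset_vpts φ _ (by simp [vpts, both, ← hm]))
  have t2 := h' (true, v, -25000 * (MM m : ℤ) + 1, -25000 * (MM m : ℤ) + 1)
    (mem_lset_vpts φ _ (by simp [vpts, ← hm]))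
  have b1 := h (false, v, -25000 * (MM m : ℤ), -25000 * (MM m : ℤ))
    (mem_lset_vpts φ _ (by simp [vpts, both, ← hm]))
  have b2 := h' (false, v, -25000 * (MM m : ℤ) - 19, -25000 * (MM m : ℤ) - 19)
    (mem_lset_vpts φ _ (by simp [vpts, ← hm]))
  rw [mvt, e1] at t1
  rw [mvt, e2] at t2
  rw [mvf, e1] at b1
  rw [mvf, e2] at b2
  push_cast at t1 t2 b1 b2
  refine ⟨?_, ?_⟩
  · rintro ⟨h1, h2⟩
    refine hG.dom hD hU hvU ?_ ?_ ?_ ?_ t2 t1 ⟨?_, ?_⟩
    all_goals (try rw [hDr]); linarith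
  · rintro ⟨h1, h2⟩
    refine hG.rf.dom hD hU hvU ?_ ?_ ?_ ?_ (v := v) (X' := -25000 * (MM m : ℝ) - q * (v + 1 - v))
      (Y' := -25000 * (MM m : ℝ) - q * (v - v)) (X := -25000 * (MM m : ℝ) - 19 - q' * (v + 1 - (v + 1)))
      (Y := -25000 * (MM m : ℝ) - 19 - q' * (v - (v + 1))) b2 b1 ⟨?_, ?_⟩
    all_goals (try rw [hDr]); linarith

/-- The corner of a clause. -/
theorem clause_excl (hG : Good (DD φ.length) (UU φ.length) S) {c : Lit ℕ × Lit ℕ × Lit ℕ} {i : ℕ}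
    (hc : φ[i]? = some c) (hc1 : c.1.2 < 3 * φ.length) (hc2 : c.2.1.2 < 3 * φ.length)
    (hc3 : c.2.2.2 < 3 * φ.length) {q1 q2 q3 : ℝ}
    (h10 : 0 ≤ q1) (h20 : 0 ≤ q2) (h30 : 0 ≤ q3) (h120 : q1 ≤ 20) (h220 : q2 ≤ 20) (h320 : q3 ≤ 20)
    (h1 : ∀ x ∈ lset φ (ng c.1), mv (ed (ng c.1) : ℝ) q1 (rp φ.length x) ∈ S)
    (h2 : ∀ x ∈ lset φ c.2.1, mv (ed c.2.1 : ℝ) q2 (rp φ.length x) ∈ S)
    (h3 : ∀ x ∈ lset φ (ng c.2.2), mv (ed (ng c.2.2) : ℝ) q3 (rp φ.length x) ∈ S) :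
    ¬(19 ≤ q1 ∧ q2 ≤ 1 ∧ 19 ≤ q3) := by
  rintro ⟨hq1, hq2, hq3⟩
  set m := φ.length with hm
  have hD := DD_pos m
  have hU := UU_pos m
  have hM := MM_pos m
  have hDr := DD_real m
  have hi : i < m := by
    by_contra hcon
    rw [List.getElem?_eq_none (by omega)] at hc
    simp at hc
  have hTU : T0 m + i < UU m := by
    unfold T0 UU MM; omega
  have hngng : ∀ l : Lit ℕ, ng (ng l) = l := by
    rintro ⟨b, v⟩
    simp [ng]
  -- bounds for the distances of the edges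
  have hg : ∀ l : Lit ℕ, l.2 < 3 * m → (199 * (MM m : ℝ) ≤ ((T0 m + i : ℕ) : ℝ) - (ed l : ℝ)) ∧
      ((T0 m + i : ℕ) : ℝ) + 1 - (ed l : ℝ) ≤ 201 * (MM m : ℝ) := by
    intro l hl
    have h1 := ed_le l
    have h2 : 199 * MM m + ed l ≤ T0 m + i := by
      unfold T0 MM; omega
    have h3 : T0 m + i + 1 ≤ 201 * MM m + ed l := by
      unfold T0 MM; omega
    have h2' : (199 : ℝ) * (MM m : ℝ) + (ed l : ℝ) ≤ ((T0 m + i : ℕ) : ℝ) := by exact_mod_cast h2
    have h3' : ((T0 m + i : ℕ) : ℝ) + 1 ≤ 201 * (MM m : ℝ) + (ed l : ℝ) := by exact_mod_cast h3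
    constructor <;> linarith
  have z1 := h1 (true, T0 m + i,
      -500000 * (MM m : ℤ) - 20 * (((T0 m + i : ℕ) : ℤ) + 1 - ed (ng c.1)),
      -250000 * (MM m : ℤ) - 20 * (((T0 m + i : ℕ) : ℤ) - ed (ng c.1)))
    (mem_lset_cpts _ hc (by simp [cpts, hngng, ← hm]))
  have z2 := h2 (true, T0 m + i, -376600 * (MM m : ℤ), -376600 * (MM m : ℤ))
    (mem_lset_cpts _ hc (by simp [cpts, ← hm]))
  have z3 := h3 (true, T0 m + i,
      -250000 * (MM m : ℤ) - 20 * (((T0 m + i : ℕ) : ℤ) + 1 - ed (ng c.2.2)),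
      -500000 * (MM m : ℤ) - 20 * (((T0 m + i : ℕ) : ℤ) - ed (ng c.2.2)))
    (mem_lset_cpts _ hc (by simp [cpts, hngng, ← hm]))
  obtain ⟨g1, g1'⟩ := hg (ng c.1) hc1
  obtain ⟨g2, g2'⟩ := hg c.2.1 hc2
  obtain ⟨g3, g3'⟩ := hg (ng c.2.2) hc3
  rw [mvt] at z1 z2 z3
  set T : ℝ := ((T0 m + i : ℕ) : ℝ) with hT
  set e1 : ℝ := (ed (ng c.1) : ℝ) with he1
  set e2 : ℝ := (ed c.2.1 : ℝ) with he2
  set e3 : ℝ := (ed (ng c.2.2) : ℝ) with he3
  have cT : ((((T0 m + i : ℕ) : ℤ)) : ℝ) = T := by rw [hT]; push_cast; ring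
  have k2 : q2 * (T + 1 - e2) ≤ 201 * (MM m : ℝ) := by nlinarith
  have k2' : q2 * (T - e2) ≤ 201 * (MM m : ℝ) := by nlinarith
  have k20 : 0 ≤ q2 * (T + 1 - e2) := mul_nonneg h20 (by linarith)
  have k20' : 0 ≤ q2 * (T - e2) := mul_nonneg h20 (by linarith)
  obtain ⟨α, β, ha, hb, hab, hq⟩ := hG.sign hD hU hTU (by rw [hDr]; push_cast; linarith)
    (by push_cast; linarith) (by rw [hDr]; push_cast; linarith) (by push_cast; linarith) z2
  have f1 := hq _ z1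
  have f3 := hq _ z3
  rw [L_pt0, L_pt1] at f1 f3
  push_cast at f1 f3
  have hTc : (T0 m : ℝ) + i = T := by rw [hT]; push_cast; ring
  rw [hTc] at f1 f3
  -- upper bound for the value of the middle point
  have m2 : α * (-376600 * (MM m : ℝ) + q2 * (T + 1 - e2)) +
      β * (-376600 * (MM m : ℝ) + q2 * (T - e2)) ≤ -376399 * (MM m : ℝ) * (α + β) := by
    have := mul_le_mul_of_nonneg_left k2 ha
    have := mul_le_mul_of_nonneg_left k2' hb
    linarith
  have j1 : -500201 * (MM m : ℝ) ≤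
      -500000 * (MM m : ℝ) - 20 * (T + 1 - e1) + q1 * (T + 1 - e1) := by nlinarith
  have j1' : -250201 * (MM m : ℝ) ≤
      -250000 * (MM m : ℝ) - 20 * (T - e1) + q1 * (T - e1) := by nlinarith
  have j3 : -250201 * (MM m : ℝ) ≤
      -250000 * (MM m : ℝ) - 20 * (T + 1 - e3) + q3 * (T + 1 - e3) := by nlinarith
  have j3' : -500201 * (MM m : ℝ) ≤
      -500000 * (MM m : ℝ) - 20 * (T - e3) + q3 * (T - e3) := by nlinarith
  have n1 := mul_le_mul_of_nonneg_left j1 ha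
  have n1' := mul_le_mul_of_nonneg_left j1' hb
  have n3 := mul_le_mul_of_nonneg_left j3 ha
  have n3' := mul_le_mul_of_nonneg_left j3' hb
  have hMab := mul_pos (by linarith : (0 : ℝ) < (MM m : ℝ)) hab
  linarith

theorem sound (hb : Bounded3 φ) (h : CTS (inst φ)) : SAT3 φ := by
  classical
  obtain ⟨S, hG, hS⟩ := normal h
  have hex : ∀ l : Lit ℕ, ∃ q : ℝ, l.2 < 3 * φ.length →
      0 ≤ q ∧ q ≤ 20 ∧ ∀ x ∈ lset φ l, mv (ed l : ℝ) q (rp φ.length x) ∈ S := by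
    intro l
    by_cases hl : l.2 < 3 * φ.length
    · obtain ⟨c, t, hc, hmem⟩ := hS l hl
      obtain ⟨q, hq⟩ := exists_q hG hl hc hmem
      exact ⟨q, fun _ => hq⟩
    · exact ⟨0, fun h => absurd h hl⟩
  choose q hq using hex
  refine ⟨fun v => decide (19 ≤ q (true, v)), fun c hc => ?_⟩
  obtain ⟨i, hi⟩ := List.mem_iff_getElem?.1 hc
  obtain ⟨hc1, hc2, hc3⟩ := hb c hc
  by_contra hcon
  push Not at hcon
  obtain ⟨n1, n2, n3⟩ := hcon
  have hex2 : ∀ v, v < 3 * φ.length → ¬(1 < q (true, v) ∧ 1 < q (false, v)) ∧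
      ¬(q (true, v) < 19 ∧ q (false, v) < 19) := by
    intro v hv
    obtain ⟨a1, a2, a3⟩ := hq (true, v) hv
    obtain ⟨b1, b2, b3⟩ := hq (false, v) hv
    exact var_excl hG hv a1 a2 b1 b2 a3 b3
  have hlit : ∀ l : Lit ℕ, l.2 < 3 * φ.length → decide (19 ≤ q (true, l.2)) ≠ l.1 →
      q l ≤ 1 ∧ 19 ≤ q (ng l) := by
    rintro ⟨b, v⟩ hl hne
    simp only at hl hne
    obtain ⟨x1, x2⟩ := hex2 v hl
    cases b
    · have h19 : 19 ≤ q (true, v) := by
        by_contra hcon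
        exact hne (by simp [hcon])
      refine ⟨?_, h19⟩
      by_contra hcon
      push Not at hcon
      exact x1 ⟨by linarith, hcon⟩
    · have h19 : q (true, v) < 19 := by
        by_contra hcon
        push Not at hcon
        exact hne (by simp [hcon])
      have h2 : 19 ≤ q (false, v) := by
        by_contra hcon
        push Not at hcon
        exact x2 ⟨h19, hcon⟩
      refine ⟨?_, h2⟩
      by_contra hcon
      push Not at hcon
      exact x1 ⟨hcon, by linarith⟩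
  obtain ⟨a1, a2⟩ := hlit c.1 hc1 n1
  obtain ⟨b1, b2⟩ := hlit c.2.1 hc2 n2
  obtain ⟨d1, d2⟩ := hlit c.2.2 hc3 n3
  obtain ⟨r1, r1', r1''⟩ := hq (ng c.1) hc1
  obtain ⟨r2, r2', r2''⟩ := hq c.2.1 hc2
  obtain ⟨r3, r3', r3''⟩ := hq (ng c.2.2) hc3
  exact clause_excl hG hi hc1 hc2 hc3 r1 r2 r3 r1' r2' r3' r1'' r2'' r3'' ⟨a2, b1, d2⟩

end Pool.Agent.Q230.CT
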