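import Pool.Agent.Q230.CT.Supp
import Pool.Agent.Q230.CT.Sound

/-!
# A satisfying assignment gives a placement in convex position
-/

set_option autoImplicit false

namespace Pool.Agent.Q230.CT

open Pool.Agent.NPC

def qv (τ : ℕ → Bool) (l : Lit ℕ) : ℝ := if τ l.2 = l.1 then 20 else 0

def mvS (e q : ℝ) (y : Spec) : Q4 :=
  (y.1, y.2.1, (y.2.2.1 : ℝ) + (if y.1 then q else -q) * (y.2.1 + 1 - e),
    (y.2.2.2 : ℝ) + (if y.1 then q else -q) * (y.2.1 - e))

theorem at4_mvS (m : ℕ) (e q : ℝ) (y : Spec) :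
    at4 (DD m) (UU m) (mvS e q y) = mv e q (rp m y) := by
  obtain ⟨s, u, X, Y⟩ := y
  cases s
  · rw [mvf]
    simp only [at4, mvS, sd, Bool.false_eq_true, if_false]
    congr 2 <;> ring
  · rw [mvt]
    simp only [at4, mvS, sd, if_true]

def PP (φ : List (Lit ℕ × Lit ℕ × Lit ℕ)) (τ : ℕ → Bool) : Set Q4 :=
  {x | (∃ y ∈ frame φ.length, x = mvS 0 0 y) ∨
    ∃ l : Lit ℕ, l.2 < 3 * φ.length ∧ ∃ y ∈ lset φ l, x = mvS (ed l) (qv τ l) y}

/-- a point in the corner of a variable -/
def KV (m : ℕ) (τ : ℕ → Bool) (x : Q4) : Prop :=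
  x.2.1 < 3 * m ∧
    ((x.1 = true ∧ x.2.2.1 = -25000 * (MM m : ℝ) + qv τ (true, x.2.1) ∧
        x.2.2.2 = -25000 * (MM m : ℝ)) ∨
      (x.1 = true ∧ x.2.2.1 = -25000 * (MM m : ℝ) + 1 ∧
        x.2.2.2 = -25000 * (MM m : ℝ) + 1 - qv τ (false, x.2.1)) ∨
      (x.1 = false ∧ x.2.2.1 = -25000 * (MM m : ℝ) - qv τ (true, x.2.1) ∧
        x.2.2.2 = -25000 * (MM m : ℝ)) ∨
      (x.1 = false ∧ x.2.2.1 = -25000 * (MM m : ℝ) - 19 ∧
        x.2.2.2 = -25000 * (MM m : ℝ) - 19 + qv τ (false, x.2.1)))

/-- a point in the corner which bounds the motion of a set -/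
def KG (m : ℕ) (τ : ℕ → Bool) (x : Q4) : Prop :=
  ∃ l : Lit ℕ, l.2 < 3 * m ∧ x.2.1 = gc m l ∧
    ((x.1 = true ∧ x.2.2.1 = (qv τ l - 20) * ((gc m l : ℝ) + 1 - ed l) ∧
        x.2.2.2 = -500000 * (MM m : ℝ) + qv τ l * ((gc m l : ℝ) - ed l)) ∨
      (x.1 = false ∧ x.2.2.1 = -(qv τ l * ((gc m l : ℝ) + 1 - ed l)) ∧
        x.2.2.2 = -500000 * (MM m : ℝ) - qv τ l * ((gc m l : ℝ) - ed l)))

/-- a point in the corner of a clause -/
def KC (φ : List (Lit ℕ × Lit ℕ × Lit ℕ)) (τ : ℕ → Bool) (x : Q4) : Prop :=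
  ∃ (i : ℕ) (c : Lit ℕ × Lit ℕ × Lit ℕ), φ[i]? = some c ∧ x.2.1 = T0 φ.length + i ∧ x.1 = true ∧
    ((x.2.2.1 = -376600 * (MM φ.length : ℝ) +
          qv τ c.2.1 * (((T0 φ.length + i : ℕ) : ℝ) + 1 - ed c.2.1) ∧
        x.2.2.2 = -376600 * (MM φ.length : ℝ) +
          qv τ c.2.1 * (((T0 φ.length + i : ℕ) : ℝ) - ed c.2.1)) ∨
      (x.2.2.1 = -500000 * (MM φ.length : ℝ) +
          (qv τ (ng c.1) - 20) * (((T0 φ.length + i : ℕ) : ℝ) + 1 - ed (ng c.1)) ∧
        x.2.2.2 = -250000 * (MM φ.length : ℝ) +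
          (qv τ (ng c.1) - 20) * (((T0 φ.length + i : ℕ) : ℝ) - ed (ng c.1))) ∨
      (x.2.2.1 = -250000 * (MM φ.length : ℝ) +
          (qv τ (ng c.2.2) - 20) * (((T0 φ.length + i : ℕ) : ℝ) + 1 - ed (ng c.2.2)) ∧
        x.2.2.2 = -500000 * (MM φ.length : ℝ) +
          (qv τ (ng c.2.2) - 20) * (((T0 φ.length + i : ℕ) : ℝ) - ed (ng c.2.2))))

variable {φ : List (Lit ℕ × Lit ℕ × Lit ℕ)} {τ : ℕ → Bool}

theorem ng_ng (l : Lit ℕ) : ng (ng l) = l := by
  obtain ⟨b, v⟩ := l
  simp [ng]

theorem classify {x : Q4} (hx : x ∈ PP φ τ) :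
    Edge (DD φ.length) (UU φ.length) x.2.1 x.2.2.1 x.2.2.2 ∨ KV φ.length τ x ∨ KG φ.length τ x ∨
      KC φ τ x := by
  have hM := MM_pos φ.length
  have hD := DD_real φ.length
  rcases hx with ⟨y, hy, rfl⟩ | ⟨l, hl, y, hy, rfl⟩
  · left
    unfold frame at hy
    rw [List.mem_flatMap] at hy
    obtain ⟨u, hu, hy⟩ := hy
    rw [List.mem_range] at hu
    simp only [tri, both, List.mem_append, List.mem_cons, List.not_mem_nil, or_false] at hy
    rcases hy with (rfl | rfl) | (rfl | rfl) | (rfl | rfl)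
    all_goals
      simp only [mvS, Edge, if_true, Bool.false_eq_true, if_false]
      push_cast
      rw [hD]
      refine ⟨by ring, by linarith, by linarith, by omega⟩
  · unfold lset at hy
    have he := ed_le l
    simp only [List.mem_append] at hy
    rcases hy with hy | hy | hy | hy
    · left
      have heU : ed l ≤ UU φ.length := by unfold UU MM; omega
      have hq : 0 ≤ qv τ l ∧ qv τ l ≤ 20 := by
        unfold qv; split <;> norm_num
      simp only [tri, both, List.mem_append, List.mem_cons, List.not_mem_nil, or_false] at hy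
      rcases hy with (rfl | rfl) | (rfl | rfl) | (rfl | rfl)
      all_goals
        simp only [mvS, Edge, if_true, Bool.false_eq_true, if_false]
        push_cast
        rw [hD]
        refine ⟨by ring, by linarith [hq.1, hq.2], by linarith [hq.1, hq.2], heU⟩
    · right; left
      obtain ⟨b, v⟩ := l
      cases b
      · simp only [vpts, Bool.false_eq_true, if_false, List.mem_cons, List.not_mem_nil,
          or_false] at hy
        rcases hy with rfl | rfl
        · refine ⟨hl, Or.inr (Or.inl ⟨rfl, ?_, ?_⟩)⟩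
          · simp only [mvS, if_true, ed, Bool.false_eq_true, if_false]
            push_cast
            ring
          · simp only [mvS, if_true, ed, Bool.false_eq_true, if_false]
            push_cast
            ring
        · refine ⟨hl, Or.inr (Or.inr (Or.inr ⟨rfl, ?_, ?_⟩))⟩
          · simp only [mvS, ed, Bool.false_eq_true, if_false]
            push_cast
            ring
          · simp only [mvS, ed, Bool.false_eq_true, if_false]
            push_cast
            ring
      · simp only [vpts, if_true, both, List.mem_cons, List.not_mem_nil, or_false] at hy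
        rcases hy with rfl | rfl
        · refine ⟨hl, Or.inl ⟨rfl, ?_, ?_⟩⟩
          · simp only [mvS, if_true, ed]
            push_cast
            ring
          · simp only [mvS, if_true, ed]
            push_cast
            ring
        · refine ⟨hl, Or.inr (Or.inr (Or.inl ⟨rfl, ?_, ?_⟩))⟩
          · simp only [mvS, ed, Bool.false_eq_true, if_false, if_true]
            push_cast
            ring
          · simp only [mvS, ed, Bool.false_eq_true, if_false, if_true]
            push_cast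
            ring
    · right; right; left
      refine ⟨l, hl, ?_⟩
      simp only [gpts, List.mem_cons, List.not_mem_nil, or_false] at hy
      rcases hy with rfl | rfl
      · refine ⟨rfl, Or.inl ⟨rfl, ?_, ?_⟩⟩
        · simp only [mvS, if_true]
          push_cast
          ring
        · simp only [mvS, if_true]
          push_cast
          ring
      · refine ⟨rfl, Or.inr ⟨rfl, ?_, ?_⟩⟩
        · simp only [mvS, Bool.false_eq_true, if_false]
          push_cast
          ring
        · simp only [mvS, Bool.false_eq_true, if_false]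
          push_cast
          ring
    · right; right; right
      rw [List.mem_flatMap] at hy
      obtain ⟨⟨c, i⟩, hci, hy⟩ := hy
      rw [List.mem_zipIdx_iff_getElem?] at hci
      simp only at hci hy
      unfold cpts at hy
      simp only [List.mem_append] at hy
      rcases hy with hy | hy | hy
      · split at hy
        · rename_i hcl
          simp only [List.mem_cons, List.not_mem_nil, or_false] at hy
          subst hy
          refine ⟨i, c, hci, rfl, rfl, Or.inl ⟨?_, ?_⟩⟩
          · simp only [mvS, if_true]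
            rw [hcl]
            push_cast
            ring
          · simp only [mvS, if_true]
            rw [hcl]
            push_cast
            ring
        · simp at hy
      · split at hy
        · rename_i hcl
          simp only [List.mem_cons, List.not_mem_nil, or_false] at hy
          subst hy
          refine ⟨i, c, hci, rfl, rfl, Or.inr (Or.inl ⟨?_, ?_⟩)⟩
          · simp only [mvS, if_true]
            rw [hcl, ng_ng]
            push_cast
            ring
          · simp only [mvS, if_true]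
            rw [hcl, ng_ng]
            push_cast
            ring
        · simp at hy
      · split at hy
        · rename_i hcl
          simp only [List.mem_cons, List.not_mem_nil, or_false] at hy
          subst hy
          refine ⟨i, c, hci, rfl, rfl, Or.inr (Or.inr ⟨?_, ?_⟩)⟩
          · simp only [mvS, if_true]
            rw [hcl, ng_ng]
            push_cast
            ring
          · simp only [mvS, if_true]
            rw [hcl, ng_ng]
            push_cast
            ring
        · simp at hy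

theorem qv_cases (τ : ℕ → Bool) (l : Lit ℕ) : qv τ l = 0 ∨ qv τ l = 20 := by
  unfold qv; split <;> simp

theorem qv_pair (τ : ℕ → Bool) (v : ℕ) :
    (qv τ (true, v) = 20 ∧ qv τ (false, v) = 0) ∨ (qv τ (true, v) = 0 ∧ qv τ (false, v) = 20) := by
  unfold qv
  cases h : τ v <;> simp

theorem gc_inj {m : ℕ} {l l' : Lit ℕ} (h : gc m l = gc m l') : l = l' := by
  obtain ⟨b, v⟩ := l
  obtain ⟨b', v'⟩ := l'
  unfold gc at h
  cases b <;> cases b' <;> simp at h ⊢ <;> omega

/-- the bounds for the corner of a clause -/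
theorem cl_bounds {i : ℕ} (hi : i < φ.length) {l : Lit ℕ} (hl : l.2 < 3 * φ.length) :
    (199 * (MM φ.length : ℝ) ≤ ((T0 φ.length + i : ℕ) : ℝ) - (ed l : ℝ)) ∧
      ((T0 φ.length + i : ℕ) : ℝ) + 1 - (ed l : ℝ) ≤ 201 * (MM φ.length : ℝ) := by
  have h1 := ed_le l
  have h2 : 199 * MM φ.length + ed l ≤ T0 φ.length + i := by
    unfold T0 MM; omega
  have h3 : T0 φ.length + i + 1 ≤ 201 * MM φ.length + ed l := by
    unfold T0 MM; omega
  have h2' : (199 : ℝ) * (MM φ.length : ℝ) + (ed l : ℝ) ≤ ((T0 φ.length + i : ℕ) : ℝ) := by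
    exact_mod_cast h2
  have h3' : ((T0 φ.length + i : ℕ) : ℝ) + 1 ≤ 201 * (MM φ.length : ℝ) + (ed l : ℝ) := by
    exact_mod_cast h3
  constructor <;> linarith

theorem corn_KV {x : Q4} (h : KV φ.length τ x) :
    Corn (DD φ.length) (UU φ.length) x.2.1 x.2.2.1 x.2.2.2 := by
  have hM := MM_pos φ.length
  obtain ⟨hv, h⟩ := h
  have hU : x.2.1 < UU φ.length := by unfold UU MM; omega
  unfold Corn
  rw [DD_real]
  rcases qv_pair τ x.2.1 with ⟨e1, e2⟩ | ⟨e1, e2⟩ <;> rw [e1, e2] at h <;>
    rcases h with ⟨-, h1, h2⟩ | ⟨-, h1, h2⟩ | ⟨-, h1, h2⟩ | ⟨-, h1, h2⟩ <;> rw [h1, h2] <;>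
    refine ⟨by linarith, by linarith, by linarith, by linarith, hU⟩

theorem gc_real {m : ℕ} {l : Lit ℕ} (hl : l.2 < 3 * m) :
    (1 : ℝ) ≤ (gc m l : ℝ) + 1 - ed l ∧ (gc m l : ℝ) + 1 - ed l ≤ 3 * (MM m : ℝ) ∧
      gc m l < UU m := by
  obtain ⟨g1, g2⟩ := gc_bounds m l hl
  have h1 := ed_le l
  have h2 : 1 + ed l ≤ gc m l + 1 := by omega
  have h3 : gc m l + 1 ≤ 3 * MM m + ed l := by unfold MM; omega
  have h2' : (1 : ℝ) + ed l ≤ (gc m l : ℝ) + 1 := by exact_mod_cast h2
  have h3' : (gc m l : ℝ) + 1 ≤ 3 * (MM m : ℝ) + ed l := by exact_mod_cast h3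
  refine ⟨by linarith, by linarith, ?_⟩
  unfold UU MM; omega

theorem corn_KG {x : Q4} (h : KG φ.length τ x) :
    Corn (DD φ.length) (UU φ.length) x.2.1 x.2.2.1 x.2.2.2 := by
  have hM := MM_pos φ.length
  obtain ⟨l, hl, hu, h⟩ := h
  obtain ⟨g1, g2, g3⟩ := gc_real hl
  have hU : x.2.1 < UU φ.length := by rw [hu]; exact g3
  unfold Corn
  rw [DD_real]
  rcases qv_cases τ l with e1 | e1 <;> rw [e1] at h <;>
    rcases h with ⟨-, h1, h2⟩ | ⟨-, h1, h2⟩ <;> rw [h1, h2] <;>
    refine ⟨by linarith, by linarith, by linarith, by linarith, hU⟩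

theorem lt_of_some {i : ℕ} {c : Lit ℕ × Lit ℕ × Lit ℕ} (h : φ[i]? = some c) : i < φ.length := by
  by_contra hcon
  rw [List.getElem?_eq_none (by omega)] at h
  simp at h

theorem corn_KC (hb : Bounded3 φ) {x : Q4} (h : KC φ τ x) :
    Corn (DD φ.length) (UU φ.length) x.2.1 x.2.2.1 x.2.2.2 := by
  have hM := MM_pos φ.length
  obtain ⟨i, c, hic, hu, -, h⟩ := h
  have hi := lt_of_some hic
  obtain ⟨b1, b2, b3⟩ := hb c (List.mem_iff_getElem?.2 ⟨i, hic⟩)
  have hU : x.2.1 < UU φ.length := by rw [hu]; unfold T0 UU MM; omega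
  obtain ⟨g1, g1'⟩ := cl_bounds hi (l := ng c.1) b1
  obtain ⟨g2, g2'⟩ := cl_bounds hi (l := c.2.1) b2
  obtain ⟨g3, g3'⟩ := cl_bounds hi (l := ng c.2.2) b3
  unfold Corn
  rw [DD_real]
  rcases h with ⟨h1, h2⟩ | ⟨h1, h2⟩ | ⟨h1, h2⟩
  · rcases qv_cases τ c.2.1 with e1 | e1 <;> rw [e1] at h1 h2 <;> rw [h1, h2] <;>
      refine ⟨by linarith, by linarith, by linarith, by linarith, hU⟩
  · rcases qv_cases τ (ng c.1) with e1 | e1 <;> rw [e1] at h1 h2 <;> rw [h1, h2] <;>
      refine ⟨by linarith, by linarith, by linarith, by linarith, hU⟩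
  · rcases qv_cases τ (ng c.2.2) with e1 | e1 <;> rw [e1] at h1 h2 <;> rw [h1, h2] <;>
      refine ⟨by linarith, by linarith, by linarith, by linarith, hU⟩

end Pool.Agent.Q230.CT
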