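import Pool.Agent.Q230.CT.Compl

/-!
# The directions in which the points near the corners are extreme
-/

set_option autoImplicit false

namespace Pool.Agent.Q230.CT

open Pool.Agent.NPC

variable {φ : List (Lit ℕ × Lit ℕ × Lit ℕ)} {τ : ℕ → Bool}

/-- `x` is extreme in the direction `(α, β)` among the points of the class `K` in its corner -/
def Wt (D : ℝ) (K : Q4 → Prop) (x : Q4) : Prop :=
  ∃ α β : ℝ, 0 < α ∧ 0 < β ∧
    -(1 / 2) * D * α ≤ α * x.2.2.1 + β * x.2.2.2 ∧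
    -(1 / 2) * D * β ≤ α * x.2.2.1 + β * x.2.2.2 ∧
    ∀ y, K y → y.1 = x.1 → y.2.1 = x.2.1 →
      α * y.2.2.1 + β * y.2.2.2 ≤ α * x.2.2.1 + β * x.2.2.2

theorem wt_KV {x : Q4} (hx : KV φ.length τ x) : Wt (DD φ.length) (KV φ.length τ) x := by
  have hM := MM_pos φ.length
  obtain ⟨s, u, X, Y⟩ := x
  obtain ⟨hv, hx⟩ := hx
  simp only at hv hx
  unfold Wt
  rw [DD_real]
  simp only
  rcases qv_pair τ u with ⟨e1, e2⟩ | ⟨e1, e2⟩ <;> rw [e1, e2] at hx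
  · rcases hx with ⟨rfl, rfl, rfl⟩ | ⟨rfl, rfl, rfl⟩ | ⟨rfl, rfl, rfl⟩ | ⟨rfl, rfl, rfl⟩
    · refine ⟨1, 1, by norm_num, by norm_num, by linarith, by linarith, ?_⟩
      rintro ⟨s', u', X', Y'⟩ ⟨-, hy⟩ hs hu
      simp only at hs hu hy ⊢
      subst hs hu
      rw [e1, e2] at hy
      rcases hy with ⟨h0, rfl, rfl⟩ | ⟨h0, rfl, rfl⟩ | ⟨h0, rfl, rfl⟩ | ⟨h0, rfl, rfl⟩ <;>
        first | (exact absurd h0 (by decide)) | linarith
    · refine ⟨1 / 25, 1, by norm_num, by norm_num, by linarith, by linarith, ?_⟩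
      rintro ⟨s', u', X', Y'⟩ ⟨-, hy⟩ hs hu
      simp only at hs hu hy ⊢
      subst hs hu
      rw [e1, e2] at hy
      rcases hy with ⟨h0, rfl, rfl⟩ | ⟨h0, rfl, rfl⟩ | ⟨h0, rfl, rfl⟩ | ⟨h0, rfl, rfl⟩ <;>
        first | (exact absurd h0 (by decide)) | linarith
    · refine ⟨1, 1, by norm_num, by norm_num, by linarith, by linarith, ?_⟩
      rintro ⟨s', u', X', Y'⟩ ⟨-, hy⟩ hs hu
      simp only at hs hu hy ⊢
      subst hs hu
      rw [e1, e2] at hy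
      rcases hy with ⟨h0, rfl, rfl⟩ | ⟨h0, rfl, rfl⟩ | ⟨h0, rfl, rfl⟩ | ⟨h0, rfl, rfl⟩ <;>
        first | (exact absurd h0 (by decide)) | linarith
    · refine ⟨1, 1 / 25, by norm_num, by norm_num, by linarith, by linarith, ?_⟩
      rintro ⟨s', u', X', Y'⟩ ⟨-, hy⟩ hs hu
      simp only at hs hu hy ⊢
      subst hs hu
      rw [e1, e2] at hy
      rcases hy with ⟨h0, rfl, rfl⟩ | ⟨h0, rfl, rfl⟩ | ⟨h0, rfl, rfl⟩ | ⟨h0, rfl, rfl⟩ <;>
        first | (exact absurd h0 (by decide)) | linarith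
  · rcases hx with ⟨rfl, rfl, rfl⟩ | ⟨rfl, rfl, rfl⟩ | ⟨rfl, rfl, rfl⟩ | ⟨rfl, rfl, rfl⟩
    · refine ⟨1, 1, by norm_num, by norm_num, by linarith, by linarith, ?_⟩
      rintro ⟨s', u', X', Y'⟩ ⟨-, hy⟩ hs hu
      simp only at hs hu hy ⊢
      subst hs hu
      rw [e1, e2] at hy
      rcases hy with ⟨h0, rfl, rfl⟩ | ⟨h0, rfl, rfl⟩ | ⟨h0, rfl, rfl⟩ | ⟨h0, rfl, rfl⟩ <;>
        first | (exact absurd h0 (by decide)) | linarith
    · refine ⟨1, 1 / 25, by norm_num, by norm_num, by linarith, by linarith, ?_⟩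
      rintro ⟨s', u', X', Y'⟩ ⟨-, hy⟩ hs hu
      simp only at hs hu hy ⊢
      subst hs hu
      rw [e1, e2] at hy
      rcases hy with ⟨h0, rfl, rfl⟩ | ⟨h0, rfl, rfl⟩ | ⟨h0, rfl, rfl⟩ | ⟨h0, rfl, rfl⟩ <;>
        first | (exact absurd h0 (by decide)) | linarith
    · refine ⟨1, 1, by norm_num, by norm_num, by linarith, by linarith, ?_⟩
      rintro ⟨s', u', X', Y'⟩ ⟨-, hy⟩ hs hu
      simp only at hs hu hy ⊢
      subst hs hu
      rw [e1, e2] at hy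
      rcases hy with ⟨h0, rfl, rfl⟩ | ⟨h0, rfl, rfl⟩ | ⟨h0, rfl, rfl⟩ | ⟨h0, rfl, rfl⟩ <;>
        first | (exact absurd h0 (by decide)) | linarith
    · refine ⟨1 / 25, 1, by norm_num, by norm_num, by linarith, by linarith, ?_⟩
      rintro ⟨s', u', X', Y'⟩ ⟨-, hy⟩ hs hu
      simp only at hs hu hy ⊢
      subst hs hu
      rw [e1, e2] at hy
      rcases hy with ⟨h0, rfl, rfl⟩ | ⟨h0, rfl, rfl⟩ | ⟨h0, rfl, rfl⟩ | ⟨h0, rfl, rfl⟩ <;>
        first | (exact absurd h0 (by decide)) | linarith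

theorem wt_KG {x : Q4} (hx : KG φ.length τ x) : Wt (DD φ.length) (KG φ.length τ) x := by
  have hM := MM_pos φ.length
  obtain ⟨l, hl, hu, hx⟩ := hx
  obtain ⟨g1, g2, -⟩ := gc_real hl
  refine ⟨1, 1 / 2, by norm_num, by norm_num, ?_, ?_, ?_⟩
  · rw [DD_real]
    rcases qv_cases τ l with e1 | e1 <;> rw [e1] at hx <;>
      rcases hx with ⟨-, h1, h2⟩ | ⟨-, h1, h2⟩ <;> rw [h1, h2] <;> linarith
  · rw [DD_real]
    rcases qv_cases τ l with e1 | e1 <;> rw [e1] at hx <;>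
      rcases hx with ⟨-, h1, h2⟩ | ⟨-, h1, h2⟩ <;> rw [h1, h2] <;> linarith
  · rintro y ⟨l', hl', hu', hy⟩ hs huu
    have hll : l' = l := gc_inj (m := φ.length) (by rw [← hu', ← hu, huu])
    subst hll
    rcases hx with ⟨hs1, h1, h2⟩ | ⟨hs1, h1, h2⟩ <;> rcases hy with ⟨hs2, k1, k2⟩ | ⟨hs2, k1, k2⟩
    · rw [h1, h2, k1, k2]
    · rw [hs, hs1] at hs2
      exact absurd hs2 (by decide)
    · rw [hs, hs1] at hs2
      exact absurd hs2 (by decide)
    · rw [h1, h2, k1, k2]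

/-- the coordinates of the three points in the corner of a clause -/
theorem cl_arith {M g1 g1' g2 g2' g3 g3' q1 q2 q3 : ℝ} (hM : 1 ≤ M)
    (hg1 : 199 * M ≤ g1) (hg1' : g1' ≤ 201 * M) (h1 : g1 ≤ g1')
    (hg2 : 199 * M ≤ g2) (hg2' : g2' ≤ 201 * M) (h2 : g2 ≤ g2')
    (hg3 : 199 * M ≤ g3) (hg3' : g3' ≤ 201 * M) (h3 : g3 ≤ g3')
    (c1 : q1 = 0 ∨ q1 = 20) (c2 : q2 = 0 ∨ q2 = 20) (c3 : q3 = 0 ∨ q3 = 20)
    (hs : q1 = 0 ∨ q2 = 20 ∨ q3 = 0) {X1 Y1 X2 Y2 X3 Y3 : ℝ}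
    (hX1 : X1 = -500000 * M + (q1 - 20) * g1') (hY1 : Y1 = -250000 * M + (q1 - 20) * g1)
    (hX2 : X2 = -376600 * M + q2 * g2') (hY2 : Y2 = -376600 * M + q2 * g2)
    (hX3 : X3 = -250000 * M + (q3 - 20) * g3') (hY3 : Y3 = -500000 * M + (q3 - 20) * g3) :
    (∃ α β : ℝ, 0 < α ∧ 0 < β ∧ -(1 / 2) * (2000000 * M) * α ≤ α * X1 + β * Y1 ∧
      -(1 / 2) * (2000000 * M) * β ≤ α * X1 + β * Y1 ∧
      α * X2 + β * Y2 ≤ α * X1 + β * Y1 ∧ α * X3 + β * Y3 ≤ α * X1 + β * Y1) ∧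
    (∃ α β : ℝ, 0 < α ∧ 0 < β ∧ -(1 / 2) * (2000000 * M) * α ≤ α * X2 + β * Y2 ∧
      -(1 / 2) * (2000000 * M) * β ≤ α * X2 + β * Y2 ∧
      α * X1 + β * Y1 ≤ α * X2 + β * Y2 ∧ α * X3 + β * Y3 ≤ α * X2 + β * Y2) ∧
    (∃ α β : ℝ, 0 < α ∧ 0 < β ∧ -(1 / 2) * (2000000 * M) * α ≤ α * X3 + β * Y3 ∧
      -(1 / 2) * (2000000 * M) * β ≤ α * X3 + β * Y3 ∧
      α * X1 + β * Y1 ≤ α * X3 + β * Y3 ∧ α * X2 + β * Y2 ≤ α * X3 + β * Y3) := by
  refine ⟨⟨1, 3 / 2, by norm_num, by norm_num, ?_⟩, ?_, ⟨3 / 2, 1, by norm_num, by norm_num, ?_⟩⟩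
  · rcases c1 with e1 | e1 <;> rcases c2 with e2 | e2 <;> rcases c3 with e3 | e3 <;>
      rw [e1] at hX1 hY1 <;> rw [e2] at hX2 hY2 <;> rw [e3] at hX3 hY3 <;>
      rw [hX1, hX2, hX3, hY1, hY2, hY3] <;>
      refine ⟨by linarith, by linarith, by linarith, by linarith⟩
  · rcases hs with e1 | e2 | e3
    · rcases c2 with e2 | e2
      · refine ⟨123 / 125, 127 / 125, by norm_num, by norm_num, ?_⟩
        rcases c3 with e3 | e3 <;>
          rw [e1] at hX1 hY1 <;> rw [e2] at hX2 hY2 <;> rw [e3] at hX3 hY3 <;>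
          rw [hX1, hX2, hX3, hY1, hY2, hY3] <;>
          refine ⟨by linarith, by linarith, by linarith, by linarith⟩
      · refine ⟨1, 1, by norm_num, by norm_num, ?_⟩
        rcases c3 with e3 | e3 <;>
          rw [e1] at hX1 hY1 <;> rw [e2] at hX2 hY2 <;> rw [e3] at hX3 hY3 <;>
          rw [hX1, hX2, hX3, hY1, hY2, hY3] <;>
          refine ⟨by linarith, by linarith, by linarith, by linarith⟩
    · refine ⟨1, 1, by norm_num, by norm_num, ?_⟩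
      rcases c1 with e1 | e1 <;> rcases c3 with e3 | e3 <;>
        rw [e1] at hX1 hY1 <;> rw [e2] at hX2 hY2 <;> rw [e3] at hX3 hY3 <;>
        rw [hX1, hX2, hX3, hY1, hY2, hY3] <;>
        refine ⟨by linarith, by linarith, by linarith, by linarith⟩
    · rcases c2 with e2 | e2
      · refine ⟨127 / 125, 123 / 125, by norm_num, by norm_num, ?_⟩
        rcases c1 with e1 | e1 <;>
          rw [e1] at hX1 hY1 <;> rw [e2] at hX2 hY2 <;> rw [e3] at hX3 hY3 <;>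
          rw [hX1, hX2, hX3, hY1, hY2, hY3] <;>
          refine ⟨by linarith, by linarith, by linarith, by linarith⟩
      · refine ⟨1, 1, by norm_num, by norm_num, ?_⟩
        rcases c1 with e1 | e1 <;>
          rw [e1] at hX1 hY1 <;> rw [e2] at hX2 hY2 <;> rw [e3] at hX3 hY3 <;>
          rw [hX1, hX2, hX3, hY1, hY2, hY3] <;>
          refine ⟨by linarith, by linarith, by linarith, by linarith⟩
  · rcases c1 with e1 | e1 <;> rcases c2 with e2 | e2 <;> rcases c3 with e3 | e3 <;>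
      rw [e1] at hX1 hY1 <;> rw [e2] at hX2 hY2 <;> rw [e3] at hX3 hY3 <;>
      rw [hX1, hX2, hX3, hY1, hY2, hY3] <;>
      refine ⟨by linarith, by linarith, by linarith, by linarith⟩

theorem qv_ng (τ : ℕ → Bool) (l : Lit ℕ) (h : τ l.2 = l.1) : qv τ (ng l) = 0 := by
  unfold qv ng
  simp [h]

theorem wt_KC (hb : Bounded3 φ)
    (hτ : ∀ c ∈ φ, τ c.1.2 = c.1.1 ∨ τ c.2.1.2 = c.2.1.1 ∨ τ c.2.2.2 = c.2.2.1) {x : Q4}
    (hx : KC φ τ x) : Wt (DD φ.length) (KC φ τ) x := by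
  have hM := MM_pos φ.length
  obtain ⟨i, c, hic, hu, hs, hx⟩ := hx
  have hi := lt_of_some hic
  have hc : c ∈ φ := List.mem_iff_getElem?.2 ⟨i, hic⟩
  obtain ⟨b1, b2, b3⟩ := hb c hc
  obtain ⟨g1, g1'⟩ := cl_bounds hi (l := ng c.1) b1
  obtain ⟨g2, g2'⟩ := cl_bounds hi (l := c.2.1) b2
  obtain ⟨g3, g3'⟩ := cl_bounds hi (l := ng c.2.2) b3
  have hsat : qv τ (ng c.1) = 0 ∨ qv τ c.2.1 = 20 ∨ qv τ (ng c.2.2) = 0 := by
    rcases hτ c hc with h | h | h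
    · exact Or.inl (qv_ng τ _ h)
    · right; left
      unfold qv
      simp [h]
    · exact Or.inr (Or.inr (qv_ng τ _ h))
  obtain ⟨w1, w2, w3⟩ := cl_arith hM g1 g1' (by linarith) g2 g2' (by linarith) g3 g3'
    (by linarith) (qv_cases τ (ng c.1)) (qv_cases τ c.2.1) (qv_cases τ (ng c.2.2)) hsat
    rfl rfl rfl rfl rfl rfl
  -- the other points in this corner
  have hoth : ∀ y, KC φ τ y → y.2.1 = x.2.1 →
      ((y.2.2.1 = -376600 * (MM φ.length : ℝ) +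
          qv τ c.2.1 * (((T0 φ.length + i : ℕ) : ℝ) + 1 - ed c.2.1) ∧
        y.2.2.2 = -376600 * (MM φ.length : ℝ) +
          qv τ c.2.1 * (((T0 φ.length + i : ℕ) : ℝ) - ed c.2.1)) ∨
      (y.2.2.1 = -500000 * (MM φ.length : ℝ) +
          (qv τ (ng c.1) - 20) * (((T0 φ.length + i : ℕ) : ℝ) + 1 - ed (ng c.1)) ∧
        y.2.2.2 = -250000 * (MM φ.length : ℝ) +
          (qv τ (ng c.1) - 20) * (((T0 φ.length + i : ℕ) : ℝ) - ed (ng c.1))) ∨
      (y.2.2.1 = -250000 * (MM φ.length : ℝ) +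
          (qv τ (ng c.2.2) - 20) * (((T0 φ.length + i : ℕ) : ℝ) + 1 - ed (ng c.2.2)) ∧
        y.2.2.2 = -500000 * (MM φ.length : ℝ) +
          (qv τ (ng c.2.2) - 20) * (((T0 φ.length + i : ℕ) : ℝ) - ed (ng c.2.2)))) := by
    rintro y ⟨i', c', hic', hu', -, hy⟩ huu
    have hii : i' = i := by
      rw [hu', hu] at huu
      omega
    subst hii
    rw [hic] at hic'
    cases hic'
    exact hy
  rw [← DD_real] at w1 w2 w3
  rcases hx with ⟨h1, h2⟩ | ⟨h1, h2⟩ | ⟨h1, h2⟩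
  · obtain ⟨α, β, ha, hb, k1, k2, k3, k4⟩ := w2
    rw [← h1, ← h2] at k1 k2 k3 k4
    refine ⟨α, β, ha, hb, k1, k2, fun y hy _ huu => ?_⟩
    rcases hoth y hy huu with ⟨e1, e2⟩ | ⟨e1, e2⟩ | ⟨e1, e2⟩
    · rw [e1, e2, h1, h2]
    · rw [e1, e2]; exact k3
    · rw [e1, e2]; exact k4
  · obtain ⟨α, β, ha, hb, k1, k2, k3, k4⟩ := w1
    rw [← h1, ← h2] at k1 k2 k3 k4
    refine ⟨α, β, ha, hb, k1, k2, fun y hy _ huu => ?_⟩
    rcases hoth y hy huu with ⟨e1, e2⟩ | ⟨e1, e2⟩ | ⟨e1, e2⟩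
    · rw [e1, e2]; exact k3
    · rw [e1, e2, h1, h2]
    · rw [e1, e2]; exact k4
  · obtain ⟨α, β, ha, hb, k1, k2, k3, k4⟩ := w3
    rw [← h1, ← h2] at k1 k2 k3 k4
    refine ⟨α, β, ha, hb, k1, k2, fun y hy _ huu => ?_⟩
    rcases hoth y hy huu with ⟨e1, e2⟩ | ⟨e1, e2⟩ | ⟨e1, e2⟩
    · rw [e1, e2]; exact k4
    · rw [e1, e2]; exact k3
    · rw [e1, e2, h1, h2]

/-- All final positions form a set each of whose points is extreme in some direction. -/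
theorem sup_PP (hb : Bounded3 φ)
    (hτ : ∀ c ∈ φ, τ c.1.2 = c.1.1 ∨ τ c.2.1.2 = c.2.1.1 ∨ τ c.2.2.2 = c.2.2.1) :
    Sup {z | ∃ x ∈ PP φ τ, z = at4 (DD φ.length) (UU φ.length) x} := by
  refine support (DD_pos _) (UU_pos _) ?_ ?_
  · intro x hx
    rcases classify hx with h | h | h | h
    · exact Or.inl h
    · exact Or.inr (corn_KV h)
    · exact Or.inr (corn_KG h)
    · exact Or.inr (corn_KC hb h)
  · intro x hx
    -- the index ranges of the three classes are disjoint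
    have r1 : ∀ y : Q4, KV φ.length τ y → y.2.1 < 3 * φ.length := fun y h => h.1
    have r2 : ∀ y : Q4, KG φ.length τ y → 3 * φ.length + 1 ≤ y.2.1 ∧ y.2.1 ≤ 9 * φ.length := by
      rintro y ⟨l, hl, hu, -⟩
      rw [hu]
      exact gc_bounds _ l hl
    have r3 : ∀ y : Q4, KC φ τ y → T0 φ.length ≤ y.2.1 := by
      rintro y ⟨i, c, -, hu, -⟩
      omega
    have hT : 9 * φ.length < T0 φ.length := by unfold T0 MM; omega
    rcases classify hx with h | h | h | h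
    · exact Or.inl h
    · right
      obtain ⟨α, β, ha, hb', k1, k2, k3⟩ := wt_KV h
      refine ⟨α, β, ha, hb', k1, k2, fun y hy hs hu => ?_⟩
      have := r1 _ h
      rcases classify hy with h' | h' | h' | h'
      · exact Or.inl h'
      · exact Or.inr (k3 y h' hs hu)
      · have := r2 _ h'; omega
      · have := r3 _ h'; omega
    · right
      obtain ⟨α, β, ha, hb', k1, k2, k3⟩ := wt_KG h
      refine ⟨α, β, ha, hb', k1, k2, fun y hy hs hu => ?_⟩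
      have := r2 _ h
      rcases classify hy with h' | h' | h' | h'
      · exact Or.inl h'
      · have := r1 _ h'; omega
      · exact Or.inr (k3 y h' hs hu)
      · have := r3 _ h'; omega
    · right
      obtain ⟨α, β, ha, hb', k1, k2, k3⟩ := wt_KC hb hτ h
      refine ⟨α, β, ha, hb', k1, k2, fun y hy hs hu => ?_⟩
      have := r3 _ h
      rcases classify hy with h' | h' | h' | h'
      · exact Or.inl h'
      · have := r1 _ h'; omega
      · have := r2 _ h'; omega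
      · exact Or.inr (k3 y h' hs hu)

theorem Sup.mono {S T : Set (ℝ × ℝ)} (h : Sup T) (hST : S ⊆ T) : Sup S := by
  intro p hp
  obtain ⟨A, B, hAB, hq⟩ := h p (hST hp)
  exact ⟨A, B, hAB, fun q hqS => hq q (hST hqS)⟩

/-- the translation vectors of the sets -/
noncomputable def tv (τ : ℕ → Bool) : ℕ → ℝ × ℝ
  | 0 => (0, 0)
  | k + 1 => (qv τ (lt k), -((ed (lt k) : ℝ) * qv τ (lt k)))

theorem complete (hb : Bounded3 φ) (h : SAT3 φ) : CTS (inst φ) := by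
  obtain ⟨τ, hτ⟩ := h
  refine ⟨fun _ => 1, tv τ, fun _ => one_pos, convexPosition_of_sup ((sup_PP hb hτ).mono ?_)⟩
  intro z hz
  obtain ⟨i, Q, hQ, x, hx, rfl⟩ := mem_whole.1 hz
  cases i with
  | zero =>
    unfold specs at hQ
    simp only [List.getElem?_cons_zero, Option.some.injEq] at hQ
    subst hQ
    refine ⟨mvS 0 0 x, Or.inl ⟨x, hx, rfl⟩, ?_⟩
    rw [at4_mvS]
    ext <;> simp [pl, mv, tv]
  | succ k =>
    unfold specs at hQ
    rw [List.getElem?_cons_succ, List.getElem?_map, Option.map_eq_some_iff] at hQ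
    obtain ⟨k', hk', rfl⟩ := hQ
    have hk : k < 6 * φ.length := by
      by_contra hcon
      rw [List.getElem?_eq_none (by rw [List.length_range]; omega)] at hk'
      exact absurd hk' (by simp)
    rw [List.getElem?_range hk] at hk'
    cases hk'
    refine ⟨mvS (ed (lt k)) (qv τ (lt k)) x, Or.inr ⟨lt k, ?_, x, hx, rfl⟩, ?_⟩
    · unfold lt
      simp only
      omega
    · rw [at4_mvS]
      ext
      · simp [pl, mv, tv]
      · simp only [pl, mv, tv]; ring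

end Pool.Agent.Q230.CT
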