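import Pool.Agent.Q230.CT.Defs

/-!
# Convex position and supporting functionals
-/

set_option autoImplicit false

namespace Pool.Agent.Q230.CT

/-- Each point of `S` maximises a nonzero linear functional on `S`. -/
def Sup (S : Set (ℝ × ℝ)) : Prop :=
  ∀ p ∈ S, ∃ A B : ℝ, (A ≠ 0 ∨ B ≠ 0) ∧ ∀ q ∈ S, A * q.1 + B * q.2 ≤ A * p.1 + B * p.2

theorem convexPosition_of_sup {S : Set (ℝ × ℝ)} (h : Sup S) : ConvexPosition S := by
  intro p hp
  obtain ⟨A, B, hAB, hS⟩ := h p hp
  have hpos : 0 < A ^ 2 + B ^ 2 := by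
    rcases hAB with h | h
    · have := sq_pos_of_ne_zero h
      nlinarith [sq_nonneg B]
    · have := sq_pos_of_ne_zero h
      nlinarith [sq_nonneg A]
  have hconv : Convex ℝ {x : ℝ × ℝ | A * x.1 + B * x.2 ≤ A * p.1 + B * p.2} := by
    intro x hx y hy s t hs ht hst
    simp only [Set.mem_setOf_eq] at hx hy ⊢
    simp only [Prod.fst_add, Prod.smul_fst, Prod.snd_add, Prod.smul_snd, smul_eq_mul]
    have e : A * (s * x.1 + t * y.1) + B * (s * x.2 + t * y.2) =
        s * (A * x.1 + B * x.2) + t * (A * y.1 + B * y.2) := by ring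
    rw [e]
    calc _ ≤ s * (A * p.1 + B * p.2) + t * (A * p.1 + B * p.2) :=
          add_le_add (mul_le_mul_of_nonneg_left hx hs) (mul_le_mul_of_nonneg_left hy ht)
      _ = (s + t) * (A * p.1 + B * p.2) := by ring
      _ = _ := by rw [hst, one_mul]
  have hull : convexHull ℝ S ⊆ {x : ℝ × ℝ | A * x.1 + B * x.2 ≤ A * p.1 + B * p.2} :=
    convexHull_min (fun q hq => hS q hq) hconv
  rw [frontier, Set.mem_diff]
  refine ⟨subset_closure (subset_convexHull ℝ S hp), fun hint => ?_⟩
  have hc : Filter.Tendsto (fun r : ℝ => (p.1 + r * A, p.2 + r * B)) (nhds 0) (nhds p) := by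
    have : Continuous (fun r : ℝ => (p.1 + r * A, p.2 + r * B)) := by fun_prop
    have h2 := this.tendsto 0
    simpa using h2
  have hev := hc.eventually (mem_interior_iff_mem_nhds.1 hint)
  obtain ⟨ε, hε, hb⟩ := Metric.eventually_nhds_iff.1 hev
  have h3 := hull (hb (y := ε / 2) (by rw [Real.dist_eq, sub_zero, abs_of_pos (by linarith)]; linarith))
  simp only [Set.mem_setOf_eq] at h3
  nlinarith [mul_pos hε hpos]

theorem sup_of_convexPosition {S : Set (ℝ × ℝ)} (h : ConvexPosition S) {a b c : ℝ × ℝ}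
    (ha : a ∈ S) (hb : b ∈ S) (hc : c ∈ S)
    (hd : (b.1 - a.1) * (c.2 - a.2) - (b.2 - a.2) * (c.1 - a.1) ≠ 0) : Sup S := by
  have hint : (interior (convexHull ℝ S)).Nonempty := by
    set d := (b.1 - a.1) * (c.2 - a.2) - (b.2 - a.2) * (c.1 - a.1) with hdd
    let s : ℝ × ℝ → ℝ := fun x => ((x.1 - a.1) * (c.2 - a.2) - (x.2 - a.2) * (c.1 - a.1)) / d
    let t : ℝ × ℝ → ℝ := fun x => ((b.1 - a.1) * (x.2 - a.2) - (b.2 - a.2) * (x.1 - a.1)) / d
    have hs : Continuous s := by fun_prop
    have ht : Continuous t := by fun_prop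
    have hopen : IsOpen {x | 0 < s x ∧ 0 < t x ∧ s x + t x < 1} :=
      (isOpen_lt continuous_const hs).inter
        ((isOpen_lt continuous_const ht).inter (isOpen_lt (hs.add ht) continuous_const))
    have hsub : {x | 0 < s x ∧ 0 < t x ∧ s x + t x < 1} ⊆ convexHull ℝ S := by
      rintro x ⟨h1, h2, h3⟩
      have hx : x = (1 - s x - t x) • a + s x • b + t x • c := by
        ext
        · simp only [Prod.fst_add, Prod.smul_fst, smul_eq_mul, s, t]
          field_simp
          rw [hdd]
          ring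
        · simp only [Prod.snd_add, Prod.smul_snd, smul_eq_mul, s, t]
          field_simp
          rw [hdd]
          ring
      rw [hx]
      have hC := convex_convexHull ℝ S
      have ha' := subset_convexHull ℝ S ha
      have hb' := subset_convexHull ℝ S hb
      have hc' := subset_convexHull ℝ S hc
      have h4 : 0 < 1 - t x := by linarith
      have hab : ((1 - s x - t x) / (1 - t x)) • a + (s x / (1 - t x)) • b ∈ convexHull ℝ S :=
        hC ha' hb' (by apply div_nonneg <;> linarith) (by apply div_nonneg <;> linarith)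
          (by field_simp; ring)
      have := hC hab hc' h4.le h2.le (by ring)
      rw [smul_add, smul_smul, smul_smul, mul_div_cancel₀ _ h4.ne', mul_div_cancel₀ _ h4.ne'] at this
      exact this
    refine ⟨(1 / 3 : ℝ) • a + (1 / 3 : ℝ) • b + (1 / 3 : ℝ) • c,
      interior_maximal hsub hopen ?_⟩
    have e1 : s ((1 / 3 : ℝ) • a + (1 / 3 : ℝ) • b + (1 / 3 : ℝ) • c) = 1 / 3 := by
      simp only [Prod.fst_add, Prod.snd_add, Prod.smul_fst, Prod.smul_snd, smul_eq_mul, s]
      rw [div_eq_iff hd, hdd]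
      ring
    have e2 : t ((1 / 3 : ℝ) • a + (1 / 3 : ℝ) • b + (1 / 3 : ℝ) • c) = 1 / 3 := by
      simp only [Prod.fst_add, Prod.snd_add, Prod.smul_fst, Prod.smul_snd, smul_eq_mul, t]
      rw [div_eq_iff hd, hdd]
      ring
    simp only [Set.mem_setOf_eq, e1, e2]
    norm_num
  intro p hp
  have hpf := (h p hp).2
  obtain ⟨f, hf⟩ := geometric_hahn_banach_open_point (convex_convexHull ℝ S).interior
    isOpen_interior hpf
  have hf' : ∀ q ∈ S, f q ≤ f p := by
    intro q hq
    have hcl : q ∈ closure (interior (convexHull ℝ S)) := by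
      rw [(convex_convexHull ℝ S).closure_interior_eq_closure_of_nonempty_interior hint]
      exact subset_closure (subset_convexHull ℝ S hq)
    have hsub : closure (interior (convexHull ℝ S)) ⊆ {x | f x ≤ f p} :=
      closure_minimal (fun x hx => (hf x hx).le) (isClosed_le f.continuous continuous_const)
    exact hsub hcl
  have hlin : ∀ x : ℝ × ℝ, f x = f (1, 0) * x.1 + f (0, 1) * x.2 := by
    intro x
    have : x = x.1 • ((1, 0) : ℝ × ℝ) + x.2 • ((0, 1) : ℝ × ℝ) := by ext <;> simp
    conv_lhs => rw [this]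
    rw [map_add, map_smul, map_smul, smul_eq_mul, smul_eq_mul]
    ring
  refine ⟨f (1, 0), f (0, 1), ?_, fun q hq => by rw [← hlin, ← hlin]; exact hf' q hq⟩
  by_contra hne
  push_neg at hne
  obtain ⟨y, hy⟩ := hint
  have := hf y hy
  rw [hlin y, hlin p, hne.1, hne.2] at this
  simp at this

end Pool.Agent.Q230.CT
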