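import Mathlib
import Pool.Agent.NPC.Defs

/-!
# Convex position by translation and scaling: definitions
-/

set_option autoImplicit false

namespace Pool.Agent.Q230.CT

/-- A set of points of the plane is in convex position if each of its points is on the boundary of
its convex hull. -/
def ConvexPosition (S : Set (ℝ × ℝ)) : Prop := ∀ p ∈ S, p ∈ frontier (convexHull ℝ S)

/-- The image of the finite point set `P` under the map `x ↦ c x + t`. -/
def place (P : List (ℚ × ℚ)) (c : ℝ) (t : ℝ × ℝ) : Set (ℝ × ℝ) :=
  {x | ∃ p ∈ P, x = (c * p.1 + t.1, c * p.2 + t.2)}

/-- The decision problem: an instance is a finite list of finite sets of rational points, each given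
as a list; it is a yes-instance if there are a scaling factor `c i > 0` and a translation vector
`t i` for each set such that the union of the scaled and translated sets is in convex position. -/
def CTS (I : List (List (ℚ × ℚ))) : Prop :=
  ∃ (c : ℕ → ℝ) (t : ℕ → ℝ × ℝ), (∀ i, 0 < c i) ∧
    ConvexPosition {x | ∃ i P, I[i]? = some P ∧ x ∈ place P (c i) (t i)}

end Pool.Agent.Q230.CT
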