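import Pool.Agent.Q230.CT.Conv

/-!
# The polygon: tangents of a parabola and their mirror images

`L D v` is (up to normalisation) the oriented distance from the tangent number `v`; the point
`pt D u X Y` has the values `X`, `Y` of `L D (u + 1)` and `L D u`. `rf D U` is the point
reflection which maps the polygon to itself, `mv e q` is a translation parallel to the tangent `e`.
-/

set_option autoImplicit false

namespace Pool.Agent.Q230.CT

section
variable {R : Type} [CommRing R]

def pt (D u X Y : R) : R × R :=
  (D * (2 * u + 1) + X - Y, -(D * u * (u + 1)) + (u + 1) * Y - u * X)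

def rf (D U : R) (p : R × R) : R × R := (2 * D * U - p.1, -(D * U * (U + 1)) - p.2)

def mv (e q : R) (p : R × R) : R × R := (p.1 + q, p.2 - e * q)

def L (D v : R) (p : R × R) : R := p.2 + v * p.1 - D * v ^ 2

/-- the distance between the two parallel edges number `v` -/
def w (D U v : R) : R := D * ((U - v) ^ 2 + v ^ 2 + U)

theorem L_pt (D v u X Y : R) :
    L D v (pt D u X Y) = -(D * (v - u) * (v - u - 1)) + (v - u) * X - (v - u - 1) * Y := by
  simp only [L, pt]; ring

theorem L_pt0 (D u X Y : R) : L D u (pt D u X Y) = Y := by rw [L_pt]; ring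

theorem L_pt1 (D u X Y : R) : L D (u + 1) (pt D u X Y) = X := by rw [L_pt]; ring

theorem L_rf (D U v : R) (p : R × R) : L D v (rf D U p) = -w D U v - L D v p := by
  simp only [L, rf, w]; ring

theorem rf_rf (D U : R) (p : R × R) : rf D U (rf D U p) = p := by
  ext <;> simp [rf]

theorem L_mv (D v e q : R) (p : R × R) : L D v (mv e q p) = L D v p + q * (v - e) := by
  simp only [L, mv]; ring

theorem mv_pt (D u X Y e q : R) :
    mv e q (pt D u X Y) = pt D u (X + q * (u + 1 - e)) (Y + q * (u - e)) := by
  ext
  · simp only [mv, pt]; ring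
  · simp only [mv, pt]; ring

theorem mv_rf (D U e q : R) (p : R × R) : mv e q (rf D U p) = rf D U (mv e (-q) p) := by
  ext
  · simp only [mv, rf]; ring
  · simp only [mv, rf]; ring

theorem pt_succ (D u Y : R) : pt D (u + 1) (-2 * D - Y) 0 = pt D u 0 Y := by
  ext
  · simp only [pt]; ring
  · simp only [pt]; ring

/-- the side: `true` is the upper side, `false` the reflected one -/
def sd (D U : R) (s : Bool) (p : R × R) : R × R := if s then p else rf D U p

theorem sd_sd (D U : R) (s : Bool) (p : R × R) : sd D U s (sd D U s p) = p := by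
  cases s
  · exact rf_rf D U p
  · rfl

end

/-- The inclusion of the integer plane. -/
def cz (p : ℤ × ℤ) : ℝ × ℝ := ((p.1 : ℝ), (p.2 : ℝ))

theorem cz_pt (D u X Y : ℤ) : cz (pt D u X Y) = pt (D : ℝ) u X Y := by
  ext <;> simp [cz, pt]

theorem cz_rf (D U : ℤ) (p : ℤ × ℤ) : cz (rf D U p) = rf (D : ℝ) U (cz p) := by
  ext <;> simp [cz, rf]

theorem cz_sd (D U : ℤ) (s : Bool) (p : ℤ × ℤ) : cz (sd D U s p) = sd (D : ℝ) U s (cz p) := by
  cases s
  · exact cz_rf D U p
  · rfl

end Pool.Agent.Q230.CT
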