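import Pool.Agent.Q230.CT.Red

/-!
# Sets in convex position which contain the frame
-/

set_option autoImplicit false

namespace Pool.Agent.Q230.CT

/-- Each point of the set is extreme in some direction, and the set contains the frame. -/
structure Good (D : ℝ) (U : ℕ) (S : Set (ℝ × ℝ)) : Prop where
  sup : Sup S
  fr : ∀ u ≤ U, ∀ s : Bool, ∀ r : ℝ, (r = 3 / 2 ∨ r = 1 ∨ r = 1 / 2) →
    sd D (U : ℝ) s (pt D u (-r * D) 0) ∈ S

variable {D : ℝ} {U : ℕ} {S : Set (ℝ × ℝ)}

theorem rf_sd (D U : ℝ) (s : Bool) (p : ℝ × ℝ) : rf D U (sd D U s p) = sd D U (!s) p := by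
  cases s
  · exact rf_rf D U p
  · rfl

theorem Good.rf (h : Good D U S) : Good D U {x | rf D (U : ℝ) x ∈ S} := by
  refine ⟨?_, ?_⟩
  · intro p hp
    obtain ⟨A, B, hAB, hS⟩ := h.sup _ hp
    refine ⟨-A, -B, ?_, fun q hq => ?_⟩
    · rcases hAB with h | h
      · exact Or.inl (neg_ne_zero.2 h)
      · exact Or.inr (neg_ne_zero.2 h)
    · have := hS _ hq
      simp only [CT.rf] at this
      linarith
  · intro u hu s r hr
    simp only [Set.mem_setOf_eq]
    rw [rf_sd]
    exact h.fr u hu _ r hr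

/-- A point between two others is extreme only in the directions orthogonal to the line. -/
theorem line (hS : Sup S) {e : ℝ} {b : ℝ × ℝ} {s s' : ℝ} (hs : 0 < s) (hs' : 0 < s')
    (hb : b ∈ S) (h1 : (b.1 + s, b.2 - e * s) ∈ S) (h2 : (b.1 - s', b.2 + e * s') ∈ S) :
    (∀ q ∈ S, L D e q ≤ L D e b) ∨ (∀ q ∈ S, L D e b ≤ L D e q) := by
  obtain ⟨A, B, hAB, hq⟩ := hS b hb
  have e1 := hq _ h1
  have e2 := hq _ h2
  simp only at e1 e2
  have e3 : (A - B * e) * s ≤ 0 := by linarith
  have e4 : 0 ≤ (A - B * e) * s' := by linarith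
  have e5 : A - B * e ≤ 0 := by
    by_contra hne
    push Not at hne
    linarith [mul_pos hne hs]
  have e6 : 0 ≤ A - B * e := by
    by_contra hne
    push Not at hne
    linarith [mul_neg_of_neg_of_pos hne hs']
  have e7 : A = B * e := by linarith
  have hB : B ≠ 0 := by
    rcases hAB with h | h
    · intro h0
      rw [h0, zero_mul] at e7
      exact h e7
    · exact h
  rcases lt_or_gt_of_ne hB with h | h
  · right
    intro q hqS
    have h4 := hq q hqS
    rw [e7] at h4
    simp only [L]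
    have h5 : B * ((q.2 + e * q.1) - (b.2 + e * b.1)) ≤ 0 := by linarith
    have h6 : 0 ≤ (q.2 + e * q.1) - (b.2 + e * b.1) := by
      by_contra hne
      push Not at hne
      linarith [mul_pos_of_neg_of_neg h hne]
    linarith
  · left
    intro q hqS
    have h4 := hq q hqS
    rw [e7] at h4
    simp only [L]
    have h5 : B * ((q.2 + e * q.1) - (b.2 + e * b.1)) ≤ 0 := by linarith
    have h6 : (q.2 + e * q.1) - (b.2 + e * b.1) ≤ 0 := by
      by_contra hne
      push Not at hne
      linarith [mul_pos h hne]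
    linarith

theorem w_ge (hD : 0 < D) (u : ℕ) : D * U ≤ w D U u := by
  unfold w
  nlinarith [mul_nonneg hD.le (sq_nonneg ((U : ℝ) - u)), mul_nonneg hD.le (sq_nonneg (u : ℝ))]

theorem w_pos (hD : 0 < D) (hU : 1 ≤ U) (u : ℕ) : 0 < w D U u := by
  have hU' : (1 : ℝ) ≤ U := by exact_mod_cast hU
  have := w_ge (U := U) hD u
  nlinarith

theorem pt_step (D u X s : ℝ) :
    pt D u (X + s) 0 = ((pt D u X 0).1 + s, (pt D u X 0).2 - u * s) := by
  ext <;> simp only [pt] <;> ring

theorem Good.L_le (hD : 0 < D) (hU : 1 ≤ U) (h : Good D U S) {u : ℕ} (hu : u ≤ U) {q : ℝ × ℝ}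
    (hq : q ∈ S) : L D u q ≤ 0 := by
  have hb := h.fr u hu true 1 (by norm_num)
  have h1 := h.fr u hu true (1 / 2) (by norm_num)
  have h2 := h.fr u hu true (3 / 2) (by norm_num)
  have h3 := h.fr u hu false 1 (by norm_num)
  simp only [sd, if_true] at hb h1 h2
  have h0 : L D u (pt D u (-1 * D) 0) = 0 := L_pt0 _ _ _ _
  have := line (D := D) h.sup (e := (u : ℝ)) (s := 1 / 2 * D) (s' := 1 / 2 * D) (by linarith)
    (by linarith) hb
    (by
      rw [← pt_step]
      convert h1 using 2
      ring)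
    (by
      have e := pt_step D u (-1 * D) (-(1 / 2 * D))
      have e' : ((pt D (u : ℝ) (-1 * D) 0).1 - 1 / 2 * D, (pt D (u : ℝ) (-1 * D) 0).2 + u * (1 / 2 * D)) =
          ((pt D (u : ℝ) (-1 * D) 0).1 + -(1 / 2 * D), (pt D (u : ℝ) (-1 * D) 0).2 - u * -(1 / 2 * D)) := by
        ext <;> simp only <;> ring
      rw [e', ← e]
      convert h2 using 2
      ring)
  rw [h0] at this
  rcases this with h4 | h4
  · exact h4 q hq
  · exfalso
    have h5 := h4 _ h3
    simp only [sd, Bool.false_eq_true, if_false] at h5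
    rw [L_rf, h0] at h5
    linarith [w_pos (U := U) hD hU u]

theorem Good.L_ge (hD : 0 < D) (hU : 1 ≤ U) (h : Good D U S) {u : ℕ} (hu : u ≤ U) {q : ℝ × ℝ}
    (hq : q ∈ S) : -w D U u ≤ L D u q := by
  have h1 : CT.rf D (U : ℝ) q ∈ {x | CT.rf D (U : ℝ) x ∈ S} := by
    simp only [Set.mem_setOf_eq, rf_rf]
    exact hq
  have h2 := h.rf.L_le hD hU hu h1
  rw [L_rf] at h2
  linarith

/-- the image of a point under scaling and translation -/
def pl (c : ℝ) (t p : ℝ × ℝ) : ℝ × ℝ := (c * p.1 + t.1, c * p.2 + t.2)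

theorem L_pl (D e c : ℝ) (t p : ℝ × ℝ) :
    L D e (pl c t p) = c * L D e p + (t.2 + e * t.1) + (c - 1) * (D * e ^ 2) := by
  simp only [L, pl]; ring

/-- A copy of the frame points on the two edges number `e` can only be moved along these edges. -/
theorem Good.shift (hD : 0 < D) (hU : 1 ≤ U) (h : Good D U S) {e : ℕ} (he : e ≤ U) {c : ℝ}
    {t : ℝ × ℝ} (hc : 0 < c)
    (hmem : ∀ s : Bool, ∀ r : ℝ, (r = 5 / 4 ∨ r = 1 ∨ r = 3 / 4) →
      pl c t (sd D (U : ℝ) s (pt D e (-r * D) 0)) ∈ S) :
    ∀ p, pl c t p = mv (e : ℝ) t.1 p := by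
  have hw := w_pos (U := U) hD hU e
  have hcD : 0 < c * (1 / 4 * D) := mul_pos hc (by linarith)
  have h0 : L D e (pt D e (-1 * D) 0) = 0 := L_pt0 _ _ _ _
  -- the value of `L` at the middle point of each side is one of the two extreme values
  have key : ∀ s : Bool, L D e (pl c t (sd D (U : ℝ) s (pt D e (-1 * D) 0))) = 0 ∨
      L D e (pl c t (sd D (U : ℝ) s (pt D e (-1 * D) 0))) = -w D U e := by
    intro s
    have hb := hmem s 1 (by norm_num)
    have h1 := hmem s (3 / 4) (by norm_num)
    have h2 := hmem s (5 / 4) (by norm_num)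
    have f1 := h.fr e he true 1 (by norm_num)
    have f2 := h.fr e he false 1 (by norm_num)
    have g1 := h.L_le hD hU he hb
    have g2 := h.L_ge hD hU he hb
    have hor : (∀ q ∈ S, L D e q ≤ L D e (pl c t (sd D (U : ℝ) s (pt D e (-1 * D) 0)))) ∨
        (∀ q ∈ S, L D e (pl c t (sd D (U : ℝ) s (pt D e (-1 * D) 0))) ≤ L D e q) := by
      cases s
      · refine line (D := D) h.sup (e := (e : ℝ)) hcD hcD hb ?_ ?_
        · convert h2 using 1
          ext <;> simp only [pl, sd, CT.rf, pt, Bool.false_eq_true, if_false] <;> ring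
        · convert h1 using 1
          ext <;> simp only [pl, sd, CT.rf, pt, Bool.false_eq_true, if_false] <;> ring
      · refine line (D := D) h.sup (e := (e : ℝ)) hcD hcD hb ?_ ?_
        · convert h1 using 1
          ext <;> simp only [pl, sd, pt, if_true] <;> ring
        · convert h2 using 1
          ext <;> simp only [pl, sd, pt, if_true] <;> ring
    have hf1 : L D e (sd D (U : ℝ) true (pt D e (-1 * D) 0)) = 0 := h0
    have hf2 : L D e (sd D (U : ℝ) false (pt D e (-1 * D) 0)) = -w D U e := by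
      simp only [sd, Bool.false_eq_true, if_false]
      rw [L_rf, h0, sub_zero]
    rcases hor with h4 | h4
    · left
      have := h4 _ f1
      rw [hf1] at this
      exact le_antisymm g1 this
    · right
      have := h4 _ f2
      rw [hf2] at this
      exact le_antisymm this g2
  have k1 := key true
  have k2 := key false
  simp only [sd, if_true, Bool.false_eq_true, if_false] at k1 k2
  rw [L_pl, h0] at k1
  rw [L_pl, L_rf, h0] at k2
  have hcw := mul_pos hc hw
  have hc1 : c = 1 ∧ t.2 + e * t.1 = 0 := by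
    have hx : c * 0 + (t.2 + e * t.1) + (c - 1) * (D * e ^ 2) -
        (c * (-w D U e - 0) + (t.2 + e * t.1) + (c - 1) * (D * e ^ 2)) = c * w D U e := by ring
    rcases k1 with k1 | k1 <;> rcases k2 with k2 | k2
    · rw [k1, k2] at hx
      linarith
    · rw [k1, k2] at hx
      have : (c - 1) * w D U e = 0 := by linarith
      rcases mul_eq_zero.1 this with h6 | h6
      · have hc1 : c = 1 := by linarith
        refine ⟨hc1, ?_⟩
        rw [hc1] at k1
        linarith
      · linarith
    · rw [k1, k2] at hx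
      linarith
    · rw [k1, k2] at hx
      linarith
  intro p
  obtain ⟨rfl, h7⟩ := hc1
  ext
  · simp only [pl, mv]; ring
  · simp only [pl, mv]; linarith

/-- A point of the set near a corner is extreme in a direction between those of the two edges. -/
theorem Good.sign (hD : 0 < D) (hU : 1 ≤ U) (h : Good D U S) {v : ℕ} (hv : v < U) {X Y : ℝ}
    (hX : -(1 / 2) * D < X) (hX' : X < 0) (hY : -(1 / 2) * D < Y) (hY' : Y < 0)
    (hp : pt D (v : ℝ) X Y ∈ S) :
    ∃ α β : ℝ, 0 ≤ α ∧ 0 ≤ β ∧ 0 < α + β ∧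
      ∀ q ∈ S, α * L D (v + 1) q + β * L D v q ≤ α * X + β * Y := by
  obtain ⟨A, B, hAB, hS⟩ := h.sup _ hp
  have hU' : (1 : ℝ) ≤ U := by exact_mod_cast hU
  have hvn : (0 : ℝ) ≤ v := Nat.cast_nonneg v
  have key : ∀ q ∈ S, (A - v * B) * L D (v + 1) q + ((v + 1) * B - A) * L D v q ≤
      (A - v * B) * X + ((v + 1) * B - A) * Y := by
    intro q hq
    have := hS q hq
    simp only [L, pt] at this ⊢
    nlinarith
  have hne : A - v * B ≠ 0 ∨ (v + 1) * B - A ≠ 0 := by
    by_contra hcon
    push Not at hcon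
    have hB : B = 0 := by linarith [hcon.1, hcon.2]
    have hA : A = 0 := by
      have := hcon.1
      rw [hB] at this
      linarith
    rcases hAB with h | h
    · exact h hA
    · exact h hB
  set α := A - v * B with hα
  set β := (v + 1) * B - A with hβ
  have b1 := key _ (h.fr v hv.le true (1 / 2) (by norm_num))
  have b2 := key _ (h.fr (v + 1) hv true (3 / 2) (by norm_num))
  have b3 := key _ (h.fr v hv.le false (1 / 2) (by norm_num))
  simp only [sd, if_true, Bool.false_eq_true, if_false] at b1 b2 b3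
  rw [L_pt0, L_pt1] at b1
  push_cast at b2
  rw [L_pt0, L_pt] at b2
  rw [L_rf, L_rf, L_pt0, L_pt1] at b3
  have w1 := w_ge (U := U) hD v
  have w2 : 2 * D ≤ w D U (v + 1) := by
    unfold w
    nlinarith [mul_nonneg hD.le (sq_nonneg ((U : ℝ) - (v + 1))), mul_nonneg hD.le (sq_nonneg (v : ℝ)),
      mul_nonneg hD.le hvn, mul_nonneg hD.le (by linarith : (0 : ℝ) ≤ U - 1)]
  have w3 : D ≤ w D U v := by nlinarith
  have c1 : α * (-(1 / 2) * D - X) + β * (-Y) ≤ 0 := by linarith
  have c2 : α * (-X) + β * (-(1 / 2) * D - Y) ≤ 0 := by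
    have e : α * 0 + β * (-(D * ((v : ℝ) - (v + 1)) * (v - (v + 1) - 1)) +
      (v - (v + 1)) * (-(3 / 2) * D) - (v - (v + 1) - 1) * 0) = β * (-(1 / 2) * D) := by ring
    rw [e] at b2
    linarith
  have c3 : α * (-w D U (v + 1) + 1 / 2 * D - X) + β * (-w D U v - Y) ≤ 0 := by linarith
  refine ⟨α, β, ?_, ?_, ?_, key⟩
  · by_contra hneg
    push Not at hneg
    rcases le_or_gt β 0 with hb | hb
    · nlinarith [mul_pos_of_neg_of_neg hneg
        (by linarith : -w D U (v + 1) + 1 / 2 * D - X < 0),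
        mul_nonneg_of_nonpos_of_nonpos hb (by linarith : -w D U v - Y ≤ 0)]
    · nlinarith [mul_pos_of_neg_of_neg hneg (by linarith : -(1 / 2) * D - X < 0),
        mul_pos hb (by linarith : 0 < -Y)]
  · by_contra hneg
    push Not at hneg
    rcases le_or_gt α 0 with hb | hb
    · nlinarith [mul_pos_of_neg_of_neg hneg (by linarith : -w D U v - Y < 0),
        mul_nonneg_of_nonpos_of_nonpos hb (by linarith : -w D U (v + 1) + 1 / 2 * D - X ≤ 0)]
    · nlinarith [mul_pos_of_neg_of_neg hneg (by linarith : -(1 / 2) * D - Y < 0),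
        mul_pos hb (by linarith : 0 < -X)]
  · by_contra hneg
    push Not at hneg
    rcases lt_or_ge α 0 with ha | ha
    · rcases le_or_gt β 0 with hb | hb
      · nlinarith [mul_pos_of_neg_of_neg ha
          (by linarith : -w D U (v + 1) + 1 / 2 * D - X < 0),
          mul_nonneg_of_nonpos_of_nonpos hb (by linarith : -w D U v - Y ≤ 0)]
      · nlinarith [mul_pos_of_neg_of_neg ha (by linarith : -(1 / 2) * D - X < 0),
          mul_pos hb (by linarith : 0 < -Y)]
    · have hb : β ≤ 0 := by linarith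
      rcases lt_or_eq_of_le hb with hb' | hb'
      · rcases le_or_gt α 0 with ha' | ha'
        · nlinarith [mul_pos_of_neg_of_neg hb' (by linarith : -w D U v - Y < 0),
            mul_nonneg_of_nonpos_of_nonpos ha' (by linarith : -w D U (v + 1) + 1 / 2 * D - X ≤ 0)]
        · nlinarith [mul_pos_of_neg_of_neg hb' (by linarith : -(1 / 2) * D - Y < 0),
            mul_pos ha' (by linarith : 0 < -X)]
      · have ha0 : α = 0 := by linarith
        rcases hne with h | h
        · exact h ha0
        · exact h hb'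

/-- No point of the set near a corner is dominated by another point. -/
theorem Good.dom (hD : 0 < D) (hU : 1 ≤ U) (h : Good D U S) {v : ℕ} (hv : v < U) {X Y X' Y' : ℝ}
    (hX : -(1 / 2) * D < X) (hX' : X < 0) (hY : -(1 / 2) * D < Y) (hY' : Y < 0)
    (hp : pt D (v : ℝ) X Y ∈ S) (hp' : pt D (v : ℝ) X' Y' ∈ S) : ¬(X < X' ∧ Y < Y') := by
  rintro ⟨h1, h2⟩
  obtain ⟨α, β, ha, hb, hab, hq⟩ := h.sign hD hU hv hX hX' hY hY' hp
  have := hq _ hp'
  rw [L_pt0, L_pt1] at this
  have e : α * (X' - X) + β * (Y' - Y) ≤ 0 := by linarith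
  have e1 := mul_nonneg ha (by linarith : 0 ≤ X' - X)
  have e2 := mul_nonneg hb (by linarith : 0 ≤ Y' - Y)
  have e3 : α * (X' - X) = 0 := by linarith
  have e4 : β * (Y' - Y) = 0 := by linarith
  have e5 : α = 0 := by
    rcases mul_eq_zero.1 e3 with h | h
    · exact h
    · linarith
  have e6 : β = 0 := by
    rcases mul_eq_zero.1 e4 with h | h
    · exact h
    · linarith
  linarith

end Pool.Agent.Q230.CT
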