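import Pool.Agent.Q230.CT.Good

/-!
# Normal form of a placement of the sets of the instance
-/

set_option autoImplicit false

namespace Pool.Agent.Q230.CT

open Pool.Agent.NPC

/-- the point of the plane described by a spec -/
def rp (m : ℕ) (x : Spec) : ℝ × ℝ :=
  sd (DD m : ℝ) (UU m : ℝ) x.1 (pt (DD m : ℝ) (x.2.1 : ℝ) (x.2.2.1 : ℝ) (x.2.2.2 : ℝ))

theorem cz_spt (m : ℕ) (x : Spec) : cz (spt m x) = rp m x := by
  unfold spt rp
  rw [cz_sd, cz_pt]
  simp only [Int.cast_natCast]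

/-- the union of the placed sets of an instance -/
def whole (I : List (List (ℚ × ℚ))) (c : ℕ → ℝ) (t : ℕ → ℝ × ℝ) : Set (ℝ × ℝ) :=
  {x | ∃ i P, I[i]? = some P ∧ x ∈ place P (c i) (t i)}

theorem mem_whole {φ : List (Lit ℕ × Lit ℕ × Lit ℕ)} {c : ℕ → ℝ} {t : ℕ → ℝ × ℝ} {y : ℝ × ℝ} :
    y ∈ whole (inst φ) c t ↔
      ∃ i Q, (specs φ)[i]? = some Q ∧ ∃ x ∈ Q, y = pl (c i) (t i) (rp φ.length x) := by
  unfold whole inst place
  simp only [Set.mem_setOf_eq, List.getElem?_map, Option.map_eq_some_iff]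
  constructor
  · rintro ⟨i, P, ⟨Q, hQ, rfl⟩, p, hp, rfl⟩
    rw [List.mem_map] at hp
    obtain ⟨x, hx, rfl⟩ := hp
    refine ⟨i, Q, hQ, x, hx, ?_⟩
    rw [← cz_spt]
    simp [pl, cz, toQ]
  · rintro ⟨i, Q, hQ, x, hx, rfl⟩
    refine ⟨i, _, ⟨Q, hQ, rfl⟩, toQ (spt φ.length x), List.mem_map_of_mem hx, ?_⟩
    rw [← cz_spt]
    simp [pl, cz, toQ]

theorem mem_frame {m : ℕ} {u : ℕ} (hu : u ≤ UU m) (s : Bool) {X : ℤ}
    (hX : X = -3000000 * (MM m : ℤ) ∨ X = -2000000 * (MM m : ℤ) ∨ X = -1000000 * (MM m : ℤ)) :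
    (s, u, X, (0 : ℤ)) ∈ frame m := by
  unfold frame
  rw [List.mem_flatMap]
  refine ⟨u, List.mem_range.2 (by omega), ?_⟩
  cases s <;> rcases hX with rfl | rfl | rfl <;> simp [tri, both]

theorem DD_real (m : ℕ) : ((DD m : ℕ) : ℝ) = 2000000 * (MM m : ℝ) := by
  simp [DD]

theorem MM_pos (m : ℕ) : (1 : ℝ) ≤ (MM m : ℝ) := by
  have : 1 ≤ MM m := by unfold MM; omega
  exact_mod_cast this

theorem rp_frame (m u : ℕ) (s : Bool) {r : ℝ} (hr : r = 3 / 2 ∨ r = 1 ∨ r = 1 / 2) :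
    ∃ X : ℤ, (X = -3000000 * (MM m : ℤ) ∨ X = -2000000 * (MM m : ℤ) ∨ X = -1000000 * (MM m : ℤ)) ∧
      rp m (s, u, X, 0) = sd (DD m : ℝ) (UU m : ℝ) s (pt (DD m : ℝ) (u : ℝ) (-r * (DD m : ℝ)) 0) := by
  rcases hr with rfl | rfl | rfl
  · refine ⟨-3000000 * (MM m : ℤ), Or.inl rfl, ?_⟩
    unfold rp
    simp only
    have e : ((-3000000 * (MM m : ℤ) : ℤ) : ℝ) = -(3 / 2) * (DD m : ℝ) := by
      rw [DD_real]; push_cast; ring
    rw [e, Int.cast_zero]
  · refine ⟨-2000000 * (MM m : ℤ), Or.inr (Or.inl rfl), ?_⟩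
    unfold rp
    simp only
    have e : ((-2000000 * (MM m : ℤ) : ℤ) : ℝ) = -1 * (DD m : ℝ) := by
      rw [DD_real]; push_cast; ring
    rw [e, Int.cast_zero]
  · refine ⟨-1000000 * (MM m : ℤ), Or.inr (Or.inr rfl), ?_⟩
    unfold rp
    simp only
    have e : ((-1000000 * (MM m : ℤ) : ℤ) : ℝ) = -(1 / 2) * (DD m : ℝ) := by
      rw [DD_real]; push_cast; ring
    rw [e, Int.cast_zero]

theorem lt_num (l : Lit ℕ) : lt (2 * l.2 + (if l.1 then 0 else 1)) = l := by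
  obtain ⟨b, v⟩ := l
  unfold lt
  cases b
  · simp only [Bool.false_eq_true, if_false]
    ext
    · simp only
      have : (2 * v + 1) % 2 ≠ 0 := by omega
      simp [this]
    · simp only
      omega
  · simp only [if_true, add_zero]
    ext
    · simp only
      have : (2 * v) % 2 = 0 := by omega
      simp [this]
    · simp only
      omega

theorem specs_lit {φ : List (Lit ℕ × Lit ℕ × Lit ℕ)} {l : Lit ℕ} (hl : l.2 < 3 * φ.length) :
    ∃ i : ℕ, (specs φ)[i]? = some (lset φ l) := by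
  have hk : 2 * l.2 + (if l.1 then 0 else 1) < 6 * φ.length := by
    split
    · omega
    · omega
  refine ⟨2 * l.2 + (if l.1 then 0 else 1) + 1, ?_⟩
  unfold specs
  rw [List.getElem?_cons_succ, List.getElem?_map, List.getElem?_range hk, Option.map_some, lt_num]

theorem normal {φ : List (Lit ℕ × Lit ℕ × Lit ℕ)} (h : CTS (inst φ)) :
    ∃ S : Set (ℝ × ℝ), Good (DD φ.length) (UU φ.length) S ∧ ∀ l : Lit ℕ, l.2 < 3 * φ.length →
      ∃ (c : ℝ) (t : ℝ × ℝ), 0 < c ∧ ∀ x ∈ lset φ l, pl c t (rp φ.length x) ∈ S := by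
  obtain ⟨c, t, hc, hconv⟩ := h
  set m := φ.length with hm
  change ConvexPosition (whole (inst φ) c t) at hconv
  have hfr : ∀ u ≤ UU m, ∀ s : Bool, ∀ r : ℝ, (r = 3 / 2 ∨ r = 1 ∨ r = 1 / 2) →
      pl (c 0) (t 0) (sd (DD m : ℝ) (UU m : ℝ) s (pt (DD m : ℝ) (u : ℝ) (-r * (DD m : ℝ)) 0)) ∈
        whole (inst φ) c t := by
    intro u hu s r hr
    obtain ⟨X, hX, e⟩ := rp_frame m u s hr
    rw [← e]
    exact mem_whole.2 ⟨0, frame m, rfl, _, mem_frame hu s hX, rfl⟩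
  have hM := MM_pos m
  have hD : (0 : ℝ) < (DD m : ℝ) := by rw [DD_real]; linarith
  have hU : (1 : ℝ) ≤ (UU m : ℝ) := by
    have : 1 ≤ UU m := by unfold UU MM; omega
    exact_mod_cast this
  have hsup : Sup (whole (inst φ) c t) := by
    refine sup_of_convexPosition hconv (hfr 0 (Nat.zero_le _) true (3 / 2) (by norm_num))
      (hfr 0 (Nat.zero_le _) true (1 / 2) (by norm_num))
      (hfr 0 (Nat.zero_le _) false (3 / 2) (by norm_num)) ?_
    simp only [pl, sd, if_true, Bool.false_eq_true, if_false, rf, pt, Nat.cast_zero]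
    have h1 := mul_pos (mul_pos (hc 0) (hc 0)) (mul_pos hD (mul_pos hD (mul_pos
      (by linarith : (0 : ℝ) < (UU m : ℝ)) (by linarith : (0 : ℝ) < (UU m : ℝ) + 1))))
    intro h0
    ring_nf at h0 h1
    linarith
  refine ⟨{x | pl (c 0) (t 0) x ∈ whole (inst φ) c t}, ⟨?_, hfr⟩, ?_⟩
  · intro p hp
    obtain ⟨A, B, hAB, hS⟩ := hsup _ hp
    refine ⟨A, B, hAB, fun q hq => ?_⟩
    have := hS _ hq
    simp only [pl] at this
    have e : c 0 * (A * q.1 + B * q.2) ≤ c 0 * (A * p.1 + B * p.2) := by linarith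
    exact le_of_mul_le_mul_left e (hc 0)
  · intro l hl
    obtain ⟨i, hi⟩ := specs_lit hl
    refine ⟨c i / c 0, ((t i).1 / c 0 - (t 0).1 / c 0, (t i).2 / c 0 - (t 0).2 / c 0),
      div_pos (hc i) (hc 0), fun x hx => ?_⟩
    simp only [Set.mem_setOf_eq]
    refine mem_whole.2 ⟨i, _, hi, x, hx, ?_⟩
    have h0 := (hc 0).ne'
    ext
    · simp only [pl]
      field_simp
      ring
    · simp only [pl]
      field_simp
      ring

end Pool.Agent.Q230.CT
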