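import Pool.Agent.Q230.CT.Red
import Pool.Agent.H78R3.TSV.Time

/-!
# The instance is computable in polynomial time
-/

set_option autoImplicit false

namespace Pool.Agent.Q230.CT

open Pool.Agent.NPC

section

variable {α : Type} [TEnc α]

abbrev P {β : Type} [TEnc β] (f : α → β) : Prop := Pool.Agent.NPC.Poly f

theorem kst {β : Type} [TEnc β] (b : β) : P (fun _ : α => b) := Pool.Agent.NPC.Poly.const b

theorem poly_MM {m : α → ℕ} (hm : P m) : P (fun a => MM (m a)) :=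
  Poly.add (Poly.mul (kst 4) hm) (kst 1)

theorem poly_DD {m : α → ℕ} (hm : P m) : P (fun a => DD (m a)) :=
  Poly.mul (kst 2000000) (poly_MM hm)

theorem poly_UU {m : α → ℕ} (hm : P m) : P (fun a => UU (m a)) :=
  Poly.mul (kst 201) (poly_MM hm)

theorem poly_T0 {m : α → ℕ} (hm : P m) : P (fun a => T0 (m a)) :=
  Poly.mul (kst 200) (poly_MM hm)

theorem poly_pt {D u X Y : α → ℤ} (hD : P D) (hu : P u) (hX : P X) (hY : P Y) :
    P (fun a => pt (D a) (u a) (X a) (Y a)) := by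
  unfold pt
  have hu1 := Poly.iadd hu (kst (1 : ℤ))
  exact Poly.pair
    (Poly.isub (Poly.iadd (Poly.imul hD (Poly.iadd (Poly.imul (kst (2 : ℤ)) hu) (kst (1 : ℤ)))) hX) hY)
    (Poly.isub (Poly.iadd (Poly.ineg (Poly.imul (Poly.imul hD hu) hu1)) (Poly.imul hu1 hY))
      (Poly.imul hu hX))

theorem poly_rf {D U : α → ℤ} {p : α → ℤ × ℤ} (hD : P D) (hU : P U) (hp : P p) :
    P (fun a => rf (D a) (U a) (p a)) := by
  unfold rf
  exact Poly.pair
    (Poly.isub (Poly.imul (Poly.imul (kst (2 : ℤ)) hD) hU) (Poly.fst hp))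
    (Poly.isub (Poly.ineg (Poly.imul (Poly.imul hD hU) (Poly.iadd hU (kst (1 : ℤ))))) (Poly.snd hp))

theorem poly_spt {m : α → ℕ} {x : α → Spec} (hm : P m) (hx : P x) :
    P (fun a => spt (m a) (x a)) := by
  have hp := poly_pt (Poly.natCast (poly_DD hm)) (Poly.natCast (Poly.fst (Poly.snd hx)))
    (Poly.fst (Poly.snd (Poly.snd hx))) (Poly.snd (Poly.snd (Poly.snd hx)))
  have hr := poly_rf (Poly.natCast (poly_DD hm)) (Poly.natCast (poly_UU hm)) hp
  unfold spt sd
  exact Poly.ite (Poly.decide_eq (Poly.fst hx) (kst true)) hp hr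

theorem spec_mk {s : α → Bool} {u : α → ℕ} {X Y : α → ℤ} (hs : P s) (hu : P u) (hX : P X)
    (hY : P Y) : P (fun a => ((s a, u a, X a, Y a) : Spec)) :=
  Poly.pair hs (Poly.pair hu (Poly.pair hX hY))

theorem one1 {β : Type} [TEnc β] {f : α → β} (hf : P f) : P (fun a => [f a]) :=
  Poly.cons hf (kst [])

theorem poly_both {u : α → ℕ} {X Y : α → ℤ} (hu : P u) (hX : P X) (hY : P Y) :
    P (fun a => both (u a) (X a) (Y a)) :=
  Poly.cons (spec_mk (kst true) hu hX hY) (one1 (spec_mk (kst false) hu hX hY))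

theorem poly_tri {u : α → ℕ} {X1 X2 X3 : α → ℤ} (hu : P u) (h1 : P X1) (h2 : P X2) (h3 : P X3) :
    P (fun a => tri (u a) (X1 a) (X2 a) (X3 a)) :=
  Poly.append (poly_both hu h1 (kst 0)) (Poly.append (poly_both hu h2 (kst 0))
    (poly_both hu h3 (kst 0)))

theorem cM {m : α → ℕ} (hm : P m) (k : ℤ) : P (fun a => k * (MM (m a) : ℤ)) :=
  Poly.imul (kst k) (Poly.natCast (poly_MM hm))

theorem poly_frame {m : α → ℕ} (hm : UPoly m) : P (fun a => frame (m a)) := by
  unfold frame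
  have hU : UPoly (fun a => UU (m a) + 1) :=
    UPoly.add (UPoly.mul (UPoly.const 201) (UPoly.add (UPoly.mul (UPoly.const 4) hm)
      (UPoly.const 1))) (UPoly.const 1)
  refine Poly.flatMap (F := fun (a : α) (u : ℕ) => tri u (-3000000 * (MM (m a) : ℤ))
    (-2000000 * (MM (m a) : ℤ)) (-1000000 * (MM (m a) : ℤ))) hU.range ?_
  have hm' : P (fun p : α × ℕ => m p.1) := hm.toPoly.comp (Poly.fst Poly.id)
  exact poly_tri (Poly.snd Poly.id) (cM hm' _) (cM hm' _) (cM hm' _)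

theorem poly_ed {l : α → Lit ℕ} (hl : P l) : P (fun a => ed (l a)) := by
  unfold ed
  exact Poly.add (Poly.snd hl) (Poly.ite (Poly.decide_eq (Poly.fst hl) (kst true)) (kst 0) (kst 1))

theorem poly_gc {m : α → ℕ} {l : α → Lit ℕ} (hm : P m) (hl : P l) :
    P (fun a => gc (m a) (l a)) := by
  unfold gc
  exact Poly.add (Poly.add (Poly.add (Poly.mul (kst 3) hm) (kst 1)) (Poly.mul (kst 2) (Poly.snd hl)))
    (Poly.ite (Poly.decide_eq (Poly.fst hl) (kst true)) (kst 0) (kst 1))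

theorem poly_ng {l : α → Lit ℕ} (hl : P l) : P (fun a => ng (l a)) := by
  unfold ng
  exact Poly.pair (Poly.not (Poly.fst hl)) (Poly.snd hl)

theorem poly_cpts {m i : α → ℕ} {l : α → Lit ℕ} {c : α → Lit ℕ × Lit ℕ × Lit ℕ} (hm : P m)
    (hl : P l) (hc : P c) (hi : P i) : P (fun a => cpts (m a) (l a) (c a) (i a)) := by
  have hT : P (fun a => T0 (m a) + i a) := Poly.add (poly_T0 hm) hi
  have hTz : P (fun a => ((T0 (m a) + i a : ℕ) : ℤ)) := Poly.natCast hT
  have he : P (fun a => (ed (l a) : ℤ)) := Poly.natCast (poly_ed hl)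
  have g1 : P (fun a => 20 * (((T0 (m a) + i a : ℕ) : ℤ) + 1 - ed (l a))) :=
    Poly.imul (kst (20 : ℤ)) (Poly.isub (Poly.iadd hTz (kst (1 : ℤ))) he)
  have g0 : P (fun a => 20 * (((T0 (m a) + i a : ℕ) : ℤ) - ed (l a))) :=
    Poly.imul (kst (20 : ℤ)) (Poly.isub hTz he)
  unfold cpts
  refine Poly.append ?_ (Poly.append ?_ ?_)
  · exact Poly.ite (Poly.decide_eq (Poly.fst (Poly.snd hc)) hl)
      (one1 (spec_mk (kst true) hT (cM hm _) (cM hm _))) (kst [])
  · exact Poly.ite (Poly.decide_eq (Poly.fst hc) (poly_ng hl))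
      (one1 (spec_mk (kst true) hT (Poly.isub (cM hm _) g1) (Poly.isub (cM hm _) g0))) (kst [])
  · exact Poly.ite (Poly.decide_eq (Poly.snd (Poly.snd hc)) (poly_ng hl))
      (one1 (spec_mk (kst true) hT (Poly.isub (cM hm _) g1) (Poly.isub (cM hm _) g0))) (kst [])

theorem poly_vpts {m : α → ℕ} {l : α → Lit ℕ} (hm : P m) (hl : P l) :
    P (fun a => vpts (m a) (l a)) := by
  unfold vpts
  have h1 : P (fun a => -25000 * (MM (m a) : ℤ) + 1) := Poly.iadd (cM hm _) (kst (1 : ℤ))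
  have h19 : P (fun a => -25000 * (MM (m a) : ℤ) - 19) := Poly.isub (cM hm _) (kst (19 : ℤ))
  exact Poly.ite (Poly.decide_eq (Poly.fst hl) (kst true))
    (poly_both (Poly.snd hl) (cM hm _) (cM hm _))
    (Poly.cons (spec_mk (kst true) (Poly.snd hl) h1 h1)
      (one1 (spec_mk (kst false) (Poly.snd hl) h19 h19)))

theorem poly_gpts {m : α → ℕ} {l : α → Lit ℕ} (hm : P m) (hl : P l) :
    P (fun a => gpts (m a) (l a)) := by
  unfold gpts
  have hg := poly_gc hm hl
  have he : P (fun a => (ed (l a) : ℤ)) := Poly.natCast (poly_ed hl)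
  have h1 : P (fun a => -20 * ((gc (m a) (l a) : ℤ) + 1 - ed (l a))) :=
    Poly.imul (kst (-20 : ℤ)) (Poly.isub (Poly.iadd (Poly.natCast hg) (kst (1 : ℤ))) he)
  exact Poly.cons (spec_mk (kst true) hg h1 (cM hm _))
    (one1 (spec_mk (kst false) hg (kst 0) (cM hm _)))

theorem poly_lset {φ : α → List (Lit ℕ × Lit ℕ × Lit ℕ)} {l : α → Lit ℕ} (hφ : P φ) (hl : P l) :
    P (fun a => lset (φ a) (l a)) := by
  have hm : P (fun a => (φ a).length) := (UPoly.length hφ).toPoly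
  unfold lset
  refine Poly.append (poly_tri (poly_ed hl) (cM hm _) (cM hm _) (cM hm _))
    (Poly.append (poly_vpts hm hl) (Poly.append (poly_gpts hm hl) ?_))
  refine Poly.flatMap (F := fun (a : α) (ci : (Lit ℕ × Lit ℕ × Lit ℕ) × ℕ) =>
    cpts (φ a).length (l a) ci.1 ci.2) (Poly.zipIdx hφ) ?_
  exact poly_cpts (hm.comp (Poly.fst Poly.id)) (hl.comp (Poly.fst Poly.id))
    (Poly.fst (Poly.snd Poly.id)) (Poly.snd (Poly.snd Poly.id))

theorem poly_lt {k : α → ℕ} (hk : P k) : P (fun a => lt (k a)) := by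
  unfold lt
  exact Poly.pair (Poly.decide_eq (Poly.mod hk (kst 2)) (kst 0)) (Poly.div hk (kst 2))

theorem poly_specs {φ : α → List (Lit ℕ × Lit ℕ × Lit ℕ)} (hφ : P φ) :
    P (fun a => specs (φ a)) := by
  have hm : UPoly (fun a => (φ a).length) := UPoly.length hφ
  unfold specs
  refine Poly.cons (poly_frame hm) (Pool.Agent.NPC.Poly.map (F := fun (a : α) (k : ℕ) => lset (φ a) (lt k))
    (UPoly.mul (UPoly.const 6) hm).range ?_)
  exact poly_lset (hφ.comp (Poly.fst Poly.id)) (poly_lt (Poly.snd Poly.id))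

theorem poly_toQ {p : α → ℤ × ℤ} (hp : P p) : P (fun a => toQ (p a)) :=
  Poly.pair (Pool.Agent.NPC.H78TSV.poly_intToRat (Poly.fst hp))
    (Pool.Agent.NPC.H78TSV.poly_intToRat (Poly.snd hp))

theorem poly_inst {φ : α → List (Lit ℕ × Lit ℕ × Lit ℕ)} (hφ : P φ) :
    P (fun a => inst (φ a)) := by
  have hm : P (fun a => (φ a).length) := (UPoly.length hφ).toPoly
  unfold inst
  refine Pool.Agent.NPC.Poly.map (F := fun (a : α) (Q : List Spec) => Q.map fun x => toQ (spt (φ a).length x))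
    (poly_specs hφ) ?_
  refine Pool.Agent.NPC.Poly.map (F := fun (p : α × List Spec) (x : Spec) => toQ (spt (φ p.1).length x))
    (Poly.snd Poly.id) ?_
  exact poly_toQ (poly_spt (hm.comp (Poly.fst (Poly.fst Poly.id))) (Poly.snd Poly.id))

end

end Pool.Agent.Q230.CT
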