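import Pool.Agent.Q230.CT.Sep
import Pool.Agent.NPC.Sat2

/-!
# The reduction from 3SAT

All points are described by a side, the number of an edge (or corner) of the polygon, and two
coordinates. The set number `0` is the frame; for each literal there is one further set.
-/

set_option autoImplicit false

namespace Pool.Agent.Q230.CT

open Pool.Agent.NPC

/-- a side, a number of a corner, two coordinates -/
abbrev Spec : Type := Bool × ℕ × ℤ × ℤ

/-- a unit which is larger than the numbers of variables and clauses -/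
def MM (m : ℕ) : ℕ := 4 * m + 1

/-- the size of the polygon -/
def DD (m : ℕ) : ℕ := 2000000 * MM m

/-- the number of edges on each side, minus one -/
def UU (m : ℕ) : ℕ := 201 * MM m

/-- the number of the first clause corner -/
def T0 (m : ℕ) : ℕ := 200 * MM m

def spt (m : ℕ) (x : Spec) : ℤ × ℤ :=
  sd (DD m : ℤ) (UU m) x.1 (pt (DD m : ℤ) x.2.1 x.2.2.1 x.2.2.2)

/-- a point and its reflection -/
def both (u : ℕ) (X Y : ℤ) : List Spec := [(true, u, X, Y), (false, u, X, Y)]

/-- three points on the edge `u` and three points on the reflected edge -/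
def tri (u : ℕ) (X1 X2 X3 : ℤ) : List Spec := both u X1 0 ++ (both u X2 0 ++ both u X3 0)

def frame (m : ℕ) : List Spec :=
  (List.range (UU m + 1)).flatMap fun u =>
    tri u (-3000000 * (MM m : ℤ)) (-2000000 * (MM m : ℤ)) (-1000000 * (MM m : ℤ))

/-- the edge along which the set of the literal `l` can move -/
def ed (l : Lit ℕ) : ℕ := l.2 + (if l.1 then 0 else 1)

/-- the corner which bounds the motion of the set of the literal `l` -/
def gc (m : ℕ) (l : Lit ℕ) : ℕ := 3 * m + 1 + 2 * l.2 + (if l.1 then 0 else 1)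

def ng (l : Lit ℕ) : Lit ℕ := (!l.1, l.2)

/-- the points of the set of the literal `l` in the corner of the clause `c` number `i` -/
def cpts (m : ℕ) (l : Lit ℕ) (c : Lit ℕ × Lit ℕ × Lit ℕ) (i : ℕ) : List Spec :=
  (if c.2.1 = l then [(true, T0 m + i, -376600 * (MM m : ℤ), -376600 * (MM m : ℤ))] else []) ++
  ((if c.1 = ng l then [(true, T0 m + i,
      -500000 * (MM m : ℤ) - 20 * (((T0 m + i : ℕ) : ℤ) + 1 - ed l),
      -250000 * (MM m : ℤ) - 20 * (((T0 m + i : ℕ) : ℤ) - ed l))] else []) ++
  (if c.2.2 = ng l then [(true, T0 m + i,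
      -250000 * (MM m : ℤ) - 20 * (((T0 m + i : ℕ) : ℤ) + 1 - ed l),
      -500000 * (MM m : ℤ) - 20 * (((T0 m + i : ℕ) : ℤ) - ed l))] else []))

/-- the points of the set of the literal `l` in the corner of its variable -/
def vpts (m : ℕ) (l : Lit ℕ) : List Spec :=
  if l.1 then both l.2 (-25000 * (MM m : ℤ)) (-25000 * (MM m : ℤ))
  else [(true, l.2, -25000 * (MM m : ℤ) + 1, -25000 * (MM m : ℤ) + 1),
    (false, l.2, -25000 * (MM m : ℤ) - 19, -25000 * (MM m : ℤ) - 19)]

/-- the two points which bound the motion of the set of the literal `l` -/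
def gpts (m : ℕ) (l : Lit ℕ) : List Spec :=
  [(true, gc m l, -20 * ((gc m l : ℤ) + 1 - ed l), -500000 * (MM m : ℤ)),
    (false, gc m l, 0, -500000 * (MM m : ℤ))]

/-- the set of the literal `l` -/
def lset (φ : List (Lit ℕ × Lit ℕ × Lit ℕ)) (l : Lit ℕ) : List Spec :=
  tri (ed l) (-2500000 * (MM φ.length : ℤ)) (-2000000 * (MM φ.length : ℤ))
    (-1500000 * (MM φ.length : ℤ)) ++
  (vpts φ.length l ++ (gpts φ.length l ++
    φ.zipIdx.flatMap fun ci => cpts φ.length l ci.1 ci.2))

/-- the literal number `k` -/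
def lt (k : ℕ) : Lit ℕ := (decide (k % 2 = 0), k / 2)

def specs (φ : List (Lit ℕ × Lit ℕ × Lit ℕ)) : List (List Spec) :=
  frame φ.length :: (List.range (6 * φ.length)).map fun k => lset φ (lt k)

def toQ (p : ℤ × ℤ) : ℚ × ℚ := ((p.1 : ℚ), (p.2 : ℚ))

def inst (φ : List (Lit ℕ × Lit ℕ × Lit ℕ)) : List (List (ℚ × ℚ)) :=
  (specs φ).map fun P => P.map fun x => toQ (spt φ.length x)

end Pool.Agent.Q230.CT
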