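import Pool.Agent.Q230.CT.Geo

/-!
# Points on the edges and in the corners of the polygon
-/

set_option autoImplicit false

namespace Pool.Agent.Q230.CT

/-- `pt D u X Y` is on the edge number `u`, at some distance from its ends -/
def Edge (D : ℝ) (U u : ℕ) (X Y : ℝ) : Prop :=
  Y = 0 ∧ -(3 / 2) * D ≤ X ∧ X ≤ -(1 / 2) * D ∧ u ≤ U

/-- `pt D u X Y` is near the corner between the edges `u` and `u + 1` -/
def Corn (D : ℝ) (U u : ℕ) (X Y : ℝ) : Prop :=
  -(1 / 2) * D ≤ X ∧ X ≤ 0 ∧ -(1 / 2) * D ≤ Y ∧ Y ≤ 0 ∧ u < U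

variable {D : ℝ} {U u v : ℕ} {X Y : ℝ}

theorem top_le (hD : 0 < D) (h : Edge D U u X Y ∨ Corn D U u X Y) :
    L D v (pt D u X Y) ≤ 0 := by
  rw [L_pt]
  rcases le_or_gt u v with huv | huv
  · obtain ⟨m, rfl⟩ := Nat.exists_eq_add_of_le huv
    rcases Nat.eq_zero_or_pos m with rfl | hm
    · rcases h with h | h
      · obtain ⟨h1, h2, h3, h4⟩ := h
        push_cast
        rw [h1]
        ring_nf
        exact le_refl _
      · obtain ⟨h1, h2, h3, h4, h5⟩ := h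
        push_cast
        ring_nf
        exact h4
    · have hm' : (1 : ℝ) ≤ m := by exact_mod_cast hm
      push_cast
      have e : -(D * ((u : ℝ) + m - u) * (u + m - u - 1)) + (u + m - u) * X - (u + m - u - 1) * Y =
          -(D * m * (m - 1)) + m * X - (m - 1) * Y := by ring
      rw [e]
      rcases h with h | h
      · obtain ⟨h1, h2, h3, h4⟩ := h
        rw [h1]
        nlinarith [mul_nonneg hD.le (mul_nonneg (by linarith : (0 : ℝ) ≤ m) (by linarith : (0 : ℝ) ≤ m - 1)),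
          mul_nonneg (by linarith : (0 : ℝ) ≤ m) (by linarith : 0 ≤ -X)]
      · obtain ⟨h1, h2, h3, h4, h5⟩ := h
        nlinarith [mul_nonneg hD.le (mul_nonneg (by linarith : (0 : ℝ) ≤ m - 1) (by linarith : (0 : ℝ) ≤ m - 1)),
          mul_nonneg (by linarith : (0 : ℝ) ≤ m) (by linarith : 0 ≤ -X),
          mul_nonneg (by linarith : (0 : ℝ) ≤ m - 1) (by linarith : 0 ≤ Y + 1 / 2 * D),
          mul_nonneg hD.le (by linarith : (0 : ℝ) ≤ m - 1)]
  · obtain ⟨k, rfl⟩ := Nat.exists_eq_add_of_lt huv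
    have hk : (0 : ℝ) ≤ k := Nat.cast_nonneg k
    push_cast
    have e : -(D * ((v : ℝ) - (v + k + 1)) * (v - (v + k + 1) - 1)) + (v - (v + k + 1)) * X -
        (v - (v + k + 1) - 1) * Y = -(D * (k + 1) * (k + 2)) - (k + 1) * X + (k + 2) * Y := by ring
    rw [e]
    rcases h with h | h
    · obtain ⟨h1, h2, h3, h4⟩ := h
      rw [h1]
      nlinarith [mul_nonneg (by linarith : (0 : ℝ) ≤ k + 1) (by linarith : 0 ≤ X + 3 / 2 * D),
        mul_nonneg hD.le (mul_nonneg hk hk), mul_nonneg hD.le hk]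
    · obtain ⟨h1, h2, h3, h4, h5⟩ := h
      nlinarith [mul_nonneg (by linarith : (0 : ℝ) ≤ k + 1) (by linarith : 0 ≤ X + 1 / 2 * D),
        mul_nonneg (by linarith : (0 : ℝ) ≤ k + 2) (by linarith : 0 ≤ -Y),
        mul_nonneg hD.le (mul_nonneg hk hk), mul_nonneg hD.le hk]

theorem top_sum (hD : 0 < D) (h : Edge D U u X Y ∨ (Corn D U u X Y ∧ u ≠ v)) :
    L D v (pt D u X Y) + L D (v + 1) (pt D u X Y) ≤ -(1 / 2) * D := by
  rw [L_pt, L_pt]
  rcases lt_trichotomy u v with huv | huv | huv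
  · obtain ⟨k, rfl⟩ := Nat.exists_eq_add_of_lt huv
    have hk : (0 : ℝ) ≤ k := Nat.cast_nonneg k
    push_cast
    have e : -(D * ((u : ℝ) + k + 1 - u) * (u + k + 1 - u - 1)) + (u + k + 1 - u) * X -
        (u + k + 1 - u - 1) * Y + (-(D * (u + k + 1 + 1 - u) * (u + k + 1 + 1 - u - 1)) +
        (u + k + 1 + 1 - u) * X - (u + k + 1 + 1 - u - 1) * Y) =
        -(2 * D * (k + 1) ^ 2) + (2 * k + 3) * X - (2 * k + 1) * Y := by ring
    rw [e]
    rcases h with h | ⟨h, -⟩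
    · obtain ⟨h1, h2, h3, h4⟩ := h
      rw [h1]
      nlinarith [mul_nonneg (by linarith : (0 : ℝ) ≤ 2 * k + 3) (by linarith : 0 ≤ -X),
        mul_nonneg hD.le (mul_nonneg hk hk), mul_nonneg hD.le hk]
    · obtain ⟨h1, h2, h3, h4, h5⟩ := h
      nlinarith [mul_nonneg (by linarith : (0 : ℝ) ≤ 2 * k + 3) (by linarith : 0 ≤ -X),
        mul_nonneg (by linarith : (0 : ℝ) ≤ 2 * k + 1) (by linarith : 0 ≤ Y + 1 / 2 * D),
        mul_nonneg hD.le (mul_nonneg hk hk), mul_nonneg hD.le hk]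
  · subst huv
    rcases h with h | ⟨h, hn⟩
    · obtain ⟨h1, h2, h3, h4⟩ := h
      rw [h1]
      ring_nf
      linarith
    · exact absurd rfl hn
  · obtain ⟨k, rfl⟩ := Nat.exists_eq_add_of_lt huv
    have hk : (0 : ℝ) ≤ k := Nat.cast_nonneg k
    push_cast
    have e : -(D * ((v : ℝ) - (v + k + 1)) * (v - (v + k + 1) - 1)) + (v - (v + k + 1)) * X -
        (v - (v + k + 1) - 1) * Y + (-(D * (v + 1 - (v + k + 1)) * (v + 1 - (v + k + 1) - 1)) +
        (v + 1 - (v + k + 1)) * X - (v + 1 - (v + k + 1) - 1) * Y) =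
        -(2 * D * (k + 1) ^ 2) - (2 * k + 1) * X + (2 * k + 3) * Y := by ring
    rw [e]
    rcases h with h | ⟨h, -⟩
    · obtain ⟨h1, h2, h3, h4⟩ := h
      rw [h1]
      nlinarith [mul_nonneg (by linarith : (0 : ℝ) ≤ 2 * k + 1) (by linarith : 0 ≤ X + 3 / 2 * D),
        mul_nonneg hD.le (mul_nonneg hk hk), mul_nonneg hD.le hk]
    · obtain ⟨h1, h2, h3, h4, h5⟩ := h
      nlinarith [mul_nonneg (by linarith : (0 : ℝ) ≤ 2 * k + 1) (by linarith : 0 ≤ X + 1 / 2 * D),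
        mul_nonneg (by linarith : (0 : ℝ) ≤ 2 * k + 3) (by linarith : 0 ≤ -Y),
        mul_nonneg hD.le (mul_nonneg hk hk), mul_nonneg hD.le hk]

theorem low_le (hD : 0 < D) (hU : 1 ≤ U) (hv : v ≤ U) (h : Edge D U u X Y ∨ Corn D U u X Y) :
    -w D U v - L D v (pt D u X Y) ≤ -(1 / 4) * D := by
  rw [L_pt, w]
  have hU' : (1 : ℝ) ≤ U := by exact_mod_cast hU
  rcases le_or_gt u v with huv | huv
  · obtain ⟨m, rfl⟩ := Nat.exists_eq_add_of_le huv
    obtain ⟨r, rfl⟩ := Nat.exists_eq_add_of_le hv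
    have hm : (0 : ℝ) ≤ m := Nat.cast_nonneg m
    have hr : (0 : ℝ) ≤ r := Nat.cast_nonneg r
    have hu : (0 : ℝ) ≤ u := Nat.cast_nonneg u
    push_cast at hU' ⊢
    have e : -(D * (((u : ℝ) + m + r - (u + m)) ^ 2 + (u + m) ^ 2 + (u + m + r))) -
        (-(D * (u + m - u) * (u + m - u - 1)) + (u + m - u) * X - (u + m - u - 1) * Y) =
        -(D * (r ^ 2 + (u + m) ^ 2 + (u + m + r))) + D * m * (m - 1) - m * X + (m - 1) * Y := by ring
    rw [e]
    rcases h with h | h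
    · obtain ⟨h1, h2, h3, h4⟩ := h
      rw [h1]
      nlinarith [mul_nonneg hm (by linarith : 0 ≤ X + 3 / 2 * D), mul_nonneg hD.le hm,
        mul_nonneg hD.le hr, mul_nonneg hD.le hu, mul_nonneg hD.le (mul_nonneg hu hm),
        mul_nonneg hD.le (sq_nonneg (r : ℝ)), mul_nonneg hD.le (sq_nonneg (u : ℝ)),
        mul_nonneg hD.le (by linarith : (0 : ℝ) ≤ u + m + r - 1)]
    · obtain ⟨h1, h2, h3, h4, h5⟩ := h
      rcases Nat.eq_zero_or_pos m with h0 | hm1
      · subst h0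
        push_cast at hU' ⊢
        nlinarith [mul_nonneg hD.le hr, mul_nonneg hD.le hu,
          mul_nonneg hD.le (sq_nonneg (r : ℝ)), mul_nonneg hD.le (sq_nonneg (u : ℝ)),
          mul_nonneg hD.le (by linarith : (0 : ℝ) ≤ u + r - 1)]
      · have hm1' : (1 : ℝ) ≤ m := by exact_mod_cast hm1
        nlinarith [mul_nonneg hm (by linarith : 0 ≤ X + 1 / 2 * D), mul_nonneg hD.le hm,
          mul_nonneg (by linarith : (0 : ℝ) ≤ m - 1) (by linarith : 0 ≤ -Y),
          mul_nonneg hD.le hr, mul_nonneg hD.le hu, mul_nonneg hD.le (mul_nonneg hu hm),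
          mul_nonneg hD.le (sq_nonneg (r : ℝ)), mul_nonneg hD.le (sq_nonneg (u : ℝ)),
          mul_nonneg hD.le (by linarith : (0 : ℝ) ≤ u + m + r - 1)]
  · obtain ⟨k, rfl⟩ := Nat.exists_eq_add_of_lt huv
    have hk : (0 : ℝ) ≤ k := Nat.cast_nonneg k
    have hvv : (0 : ℝ) ≤ v := Nat.cast_nonneg v
    have hu : v + k + 1 ≤ U := by
      rcases h with h | h
      · exact h.2.2.2
      · exact h.2.2.2.2.le
    obtain ⟨r, rfl⟩ := Nat.exists_eq_add_of_le hu
    have hr : (0 : ℝ) ≤ r := Nat.cast_nonneg r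
    push_cast at hU' ⊢
    have e : -(D * (((v : ℝ) + k + 1 + r - v) ^ 2 + v ^ 2 + (v + k + 1 + r))) -
        (-(D * (v - (v + k + 1)) * (v - (v + k + 1) - 1)) + (v - (v + k + 1)) * X -
          (v - (v + k + 1) - 1) * Y) =
        -(D * ((k + 1 + r) ^ 2 + v ^ 2 + (v + k + 1 + r))) + D * (k + 1) * (k + 2) + (k + 1) * X -
          (k + 2) * Y := by ring
    rw [e]
    rcases h with h | h
    · obtain ⟨h1, h2, h3, h4⟩ := h
      rw [h1]
      nlinarith [mul_nonneg (by linarith : (0 : ℝ) ≤ k + 1) (by linarith : 0 ≤ -(1 / 2) * D - X),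
        mul_nonneg hD.le hk, mul_nonneg hD.le hr, mul_nonneg hD.le hvv,
        mul_nonneg hD.le (mul_nonneg hr hk), mul_nonneg hD.le (sq_nonneg (r : ℝ)),
        mul_nonneg hD.le (sq_nonneg (v : ℝ)), mul_nonneg hD.le (mul_nonneg hk hk)]
    · obtain ⟨h1, h2, h3, h4, h5⟩ := h
      have hr1 : 1 ≤ r := by omega
      have hr1' : (1 : ℝ) ≤ r := by exact_mod_cast hr1
      nlinarith [mul_nonneg (by linarith : (0 : ℝ) ≤ k + 1) (by linarith : 0 ≤ -X),
        mul_nonneg (by linarith : (0 : ℝ) ≤ k + 2) (by linarith : 0 ≤ Y + 1 / 2 * D),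
        mul_nonneg hD.le hk, mul_nonneg hD.le (by linarith : (0 : ℝ) ≤ r - 1), mul_nonneg hD.le hvv,
        mul_nonneg hD.le (mul_nonneg (by linarith : (0 : ℝ) ≤ r - 1) hk),
        mul_nonneg hD.le (sq_nonneg ((r : ℝ) - 1)),
        mul_nonneg hD.le (sq_nonneg (v : ℝ)), mul_nonneg hD.le (mul_nonneg hk hk)]

end Pool.Agent.Q230.CT
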