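import Pool.Agent.Q230.CT.Norm

/-!
# A sufficient condition for convex position
-/

set_option autoImplicit false

namespace Pool.Agent.Q230.CT

/-- a side, an edge (or corner), two real coordinates -/
abbrev Q4 : Type := Bool × ℕ × ℝ × ℝ

def at4 (D : ℝ) (U : ℕ) (x : Q4) : ℝ × ℝ := sd D (U : ℝ) x.1 (pt D (x.2.1 : ℝ) x.2.2.1 x.2.2.2)

def FF (D α β : ℝ) (u : ℕ) (q : ℝ × ℝ) : ℝ := α * L D (u + 1) q + β * L D u q

variable {D : ℝ} {U : ℕ}

theorem sup_of_F {S : Set (ℝ × ℝ)} {s : Bool} {u : ℕ} {α β : ℝ} (hab : 0 < α + β) {p : ℝ × ℝ}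
    (h : ∀ q ∈ S, FF D α β u (sd D (U : ℝ) s q) ≤ FF D α β u (sd D (U : ℝ) s p)) :
    ∃ A B : ℝ, (A ≠ 0 ∨ B ≠ 0) ∧ ∀ q ∈ S, A * q.1 + B * q.2 ≤ A * p.1 + B * p.2 := by
  cases s
  · refine ⟨-(α * (u + 1) + β * u), -(α + β), Or.inr (neg_ne_zero.2 hab.ne'), fun q hq => ?_⟩
    have := h q hq
    simp only [FF, L, sd, rf, Bool.false_eq_true, if_false] at this
    linarith
  · refine ⟨α * (u + 1) + β * u, α + β, Or.inr hab.ne', fun q hq => ?_⟩
    have := h q hq
    simp only [FF, L, sd, if_true] at this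
    linarith

/-- the bound for all points which are not near the given corner on the given side -/
theorem far (hD : 0 < D) (hU : 1 ≤ U) {s : Bool} {u : ℕ} (hu : u < U) {y : Q4}
    (hy : Edge D U y.2.1 y.2.2.1 y.2.2.2 ∨ Corn D U y.2.1 y.2.2.1 y.2.2.2)
    (hy2 : y.1 = s → y.2.1 = u → Edge D U y.2.1 y.2.2.1 y.2.2.2) :
    L D (u + 1) (sd D (U : ℝ) s (at4 D U y)) ≤ 0 ∧ L D u (sd D (U : ℝ) s (at4 D U y)) ≤ 0 ∧
      L D (u + 1) (sd D (U : ℝ) s (at4 D U y)) + L D u (sd D (U : ℝ) s (at4 D U y)) ≤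
        -(1 / 2) * D := by
  obtain ⟨s', u', X, Y⟩ := y
  simp only at hy hy2
  have hc : ((u : ℝ) + 1) = ((u + 1 : ℕ) : ℝ) := by push_cast; ring
  by_cases hs : s' = s
  · subst hs
    have e : sd D (U : ℝ) s' (at4 D U (s', u', X, Y)) = pt D (u' : ℝ) X Y := sd_sd _ _ _ _
    rw [e]
    refine ⟨by rw [hc]; exact top_le hD hy, top_le hD hy, ?_⟩
    have := top_sum (v := u) hD (D := D) (U := U) (u := u') (X := X) (Y := Y) (by
      rcases hy with h | h
      · exact Or.inl h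
      · by_cases he : u' = u
        · exact Or.inl (hy2 rfl he)
        · exact Or.inr ⟨h, he⟩)
    linarith
  · have e : sd D (U : ℝ) s (at4 D U (s', u', X, Y)) = rf D (U : ℝ) (pt D (u' : ℝ) X Y) := by
      cases s <;> cases s'
      · exact absurd rfl hs
      · rfl
      · rfl
      · exact absurd rfl hs
    rw [e, L_rf, L_rf]
    have h1 := low_le (v := u + 1) hD hU hu hy
    have h2 := low_le (v := u) hD hU hu.le hy
    rw [← hc] at h1
    refine ⟨by linarith, by linarith, by linarith⟩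

theorem support (hD : 0 < D) (hU : 1 ≤ U) {P : Set Q4}
    (hP : ∀ x ∈ P, Edge D U x.2.1 x.2.2.1 x.2.2.2 ∨ Corn D U x.2.1 x.2.2.1 x.2.2.2)
    (hC : ∀ x ∈ P, Edge D U x.2.1 x.2.2.1 x.2.2.2 ∨ ∃ α β : ℝ, 0 < α ∧ 0 < β ∧
      -(1 / 2) * D * α ≤ α * x.2.2.1 + β * x.2.2.2 ∧
      -(1 / 2) * D * β ≤ α * x.2.2.1 + β * x.2.2.2 ∧
      ∀ y ∈ P, y.1 = x.1 → y.2.1 = x.2.1 → Edge D U y.2.1 y.2.2.1 y.2.2.2 ∨
        α * y.2.2.1 + β * y.2.2.2 ≤ α * x.2.2.1 + β * x.2.2.2) :
    Sup {z | ∃ x ∈ P, z = at4 D U x} := by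
  rintro _ ⟨x, hx, rfl⟩
  have hself : sd D (U : ℝ) x.1 (at4 D U x) = pt D (x.2.1 : ℝ) x.2.2.1 x.2.2.2 := sd_sd _ _ _ _
  rcases hC x hx with hE | ⟨α, β, ha, hb, h1, h2, h3⟩
  · -- a point on an edge
    refine sup_of_F (D := D) (U := U) (s := x.1) (u := x.2.1) (α := 0) (β := 1) (by norm_num) ?_
    rintro _ ⟨y, hy, rfl⟩
    rw [hself]
    simp only [FF, zero_mul, zero_add, one_mul]
    rw [L_pt0, hE.1]
    by_cases hs : y.1 = x.1
    · have e : sd D (U : ℝ) x.1 (at4 D U y) = pt D (y.2.1 : ℝ) y.2.2.1 y.2.2.2 := by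
        rw [← hs]; exact sd_sd _ _ _ _
      rw [e]
      exact top_le hD (hP y hy)
    · have e : sd D (U : ℝ) x.1 (at4 D U y) = rf D (U : ℝ) (pt D (y.2.1 : ℝ) y.2.2.1 y.2.2.2) := by
        obtain ⟨s, x2⟩ := x
        obtain ⟨s', y2⟩ := y
        cases s <;> cases s'
        · exact absurd rfl hs
        · rfl
        · rfl
        · exact absurd rfl hs
      rw [e, L_rf]
      have := low_le (v := x.2.1) hD hU hE.2.2.2 (hP y hy)
      linarith
  · by_cases hE : Edge D U x.2.1 x.2.2.1 x.2.2.2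
    · refine sup_of_F (D := D) (U := U) (s := x.1) (u := x.2.1) (α := 0) (β := 1) (by norm_num) ?_
      rintro _ ⟨y, hy, rfl⟩
      rw [hself]
      simp only [FF, zero_mul, zero_add, one_mul]
      rw [L_pt0, hE.1]
      by_cases hs : y.1 = x.1
      · have e : sd D (U : ℝ) x.1 (at4 D U y) = pt D (y.2.1 : ℝ) y.2.2.1 y.2.2.2 := by
          rw [← hs]; exact sd_sd _ _ _ _
        rw [e]
        exact top_le hD (hP y hy)
      · have e : sd D (U : ℝ) x.1 (at4 D U y) = rf D (U : ℝ) (pt D (y.2.1 : ℝ) y.2.2.1 y.2.2.2) := by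
          obtain ⟨s, x2⟩ := x
          obtain ⟨s', y2⟩ := y
          cases s <;> cases s'
          · exact absurd rfl hs
          · rfl
          · rfl
          · exact absurd rfl hs
        rw [e, L_rf]
        have := low_le (v := x.2.1) hD hU hE.2.2.2 (hP y hy)
        linarith
    · have hCo : Corn D U x.2.1 x.2.2.1 x.2.2.2 := by
        rcases hP x hx with h | h
        · exact absurd h hE
        · exact h
      have hu : x.2.1 < U := hCo.2.2.2.2
      refine sup_of_F (D := D) (U := U) (s := x.1) (u := x.2.1) (α := α) (β := β) (by linarith) ?_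
      rintro _ ⟨y, hy, rfl⟩
      rw [hself]
      have hval : FF D α β x.2.1 (pt D (x.2.1 : ℝ) x.2.2.1 x.2.2.2) =
          α * x.2.2.1 + β * x.2.2.2 := by
        unfold FF
        rw [L_pt0, L_pt1]
      rw [hval]
      by_cases hsame : y.1 = x.1 ∧ y.2.1 = x.2.1 ∧ ¬ Edge D U y.2.1 y.2.2.1 y.2.2.2
      · obtain ⟨hs, hu', hnE⟩ := hsame
        have e : sd D (U : ℝ) x.1 (at4 D U y) = pt D (y.2.1 : ℝ) y.2.2.1 y.2.2.2 := by
          rw [← hs]; exact sd_sd _ _ _ _
        rw [e]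
        unfold FF
        rw [← hu', L_pt0, L_pt1]
        rcases h3 y hy hs hu' with h | h
        · exact absurd h hnE
        · exact h
      · obtain ⟨f1, f2, f3⟩ := far hD hU (s := x.1) hu (hP y hy) (by
          intro hs hu'
          by_contra hnE
          exact hsame ⟨hs, hu', hnE⟩)
        unfold FF
        set L1 := L D ((x.2.1 : ℝ) + 1) (sd D (U : ℝ) x.1 (at4 D U y)) with hL1
        set L0 := L D (x.2.1 : ℝ) (sd D (U : ℝ) x.1 (at4 D U y)) with hL0
        rcases le_total α β with hle | hle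
        · nlinarith [mul_nonneg (by linarith : 0 ≤ β - α) (by linarith : 0 ≤ -L0),
            mul_nonneg ha.le (by linarith : 0 ≤ -(1 / 2) * D - (L1 + L0))]
        · nlinarith [mul_nonneg (by linarith : 0 ≤ α - β) (by linarith : 0 ≤ -L1),
            mul_nonneg hb.le (by linarith : 0 ≤ -(1 / 2) * D - (L1 + L0))]

end Pool.Agent.Q230.CT
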